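import Pool.Agent.W503.EH.Defs

/-!
# Basic facts on slices and projections
-/

namespace Pool.Agent.W503.EH

open MeasureTheory Set

section
variable {m : ℕ}

theorem pr_eq (η : Fin m → ℝ) (K : Set (Fin (m + 1) → ℝ)) :
    pr η K = (fun x : Fin (m + 1) → ℝ => fun i => x i.succ - x 0 * η i) '' K := by
  ext z
  constructor
  · rintro ⟨s, hs⟩
    exact ⟨_, hs, by ext i; simp⟩
  · rintro ⟨x, hx, rfl⟩
    refine ⟨x 0, ?_⟩
    convert hx
    conv_rhs => rw [← cs_eta x]
    congr 1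
    ext i
    simp

theorem sl_eq (K : Set (Fin (m + 1) → ℝ)) (t : ℝ) :
    sl K t = (fun x : Fin (m + 1) → ℝ => fun i => x i.succ) '' (K ∩ {x | x 0 = t}) := by
  ext x
  constructor
  · intro hx
    exact ⟨cs t x, ⟨hx, rfl⟩, by ext i; simp⟩
  · rintro ⟨y, ⟨hy, hy0⟩, rfl⟩
    have hy0 : y 0 = t := hy0
    change cs t _ ∈ K
    rw [← hy0, cs_eta]
    exact hy

theorem isCompact_pr {K : Set (Fin (m + 1) → ℝ)} (hK : IsCompact K) (η : Fin m → ℝ) :
    IsCompact (pr η K) := by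
  rw [pr_eq]
  exact hK.image (by fun_prop)

theorem isCompact_sl {K : Set (Fin (m + 1) → ℝ)} (hK : IsCompact K) (t : ℝ) :
    IsCompact (sl K t) := by
  rw [sl_eq]
  exact (hK.inter_right (isClosed_eq (by fun_prop) (by fun_prop))).image (by fun_prop)

theorem pr_mono {K L : Set (Fin (m + 1) → ℝ)} (h : K ⊆ L) (η : Fin m → ℝ) : pr η K ⊆ pr η L :=
  fun _ ⟨s, hs⟩ => ⟨s, h hs⟩

theorem sl_mono {K L : Set (Fin (m + 1) → ℝ)} (h : K ⊆ L) (t : ℝ) : sl K t ⊆ sl L t :=
  fun _ hx => h hx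

theorem pr_nonempty {K : Set (Fin (m + 1) → ℝ)} (h : K.Nonempty) (η : Fin m → ℝ) :
    (pr η K).Nonempty := by
  rw [pr_eq]
  exact h.image _

theorem comb_cs (a b s t : ℝ) (x y : Fin m → ℝ) :
    a • cs s x + b • cs t y = cs (a * s + b * t) (a • x + b • y) := by
  rw [cs_smul, cs_smul, cs_add]

/-- convex combinations of slices -/
theorem sl_comb {K : Set (Fin (m + 1) → ℝ)} (hK : Convex ℝ K) {a b s t : ℝ} (ha : 0 ≤ a)
    (hb : 0 ≤ b) (hab : a + b = 1) {x y : Fin m → ℝ} (hx : x ∈ sl K s) (hy : y ∈ sl K t) :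
    a • x + b • y ∈ sl K (a * s + b * t) := by
  have := hK hx hy ha hb hab
  rw [comb_cs] at this
  exact this

theorem convex_sl {K : Set (Fin (m + 1) → ℝ)} (hK : Convex ℝ K) (t : ℝ) : Convex ℝ (sl K t) := by
  intro x hx y hy a b ha hb hab
  have := sl_comb hK ha hb hab hx hy
  rwa [← add_mul, hab, one_mul] at this

/-- convex combinations of projections -/
theorem pr_comb {A B C : Set (Fin (m + 1) → ℝ)} {a b : ℝ}
    (h : ∀ x ∈ A, ∀ y ∈ B, a • x + b • y ∈ C) (η : Fin m → ℝ) {x y : Fin m → ℝ}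
    (hx : x ∈ pr η A) (hy : y ∈ pr η B) : a • x + b • y ∈ pr η C := by
  obtain ⟨s, hs⟩ := hx
  obtain ⟨t, ht⟩ := hy
  refine ⟨a * s + b * t, ?_⟩
  have := h _ hs _ ht
  rw [comb_cs] at this
  convert this using 2
  module

theorem convex_pr {K : Set (Fin (m + 1) → ℝ)} (hK : Convex ℝ K) (η : Fin m → ℝ) :
    Convex ℝ (pr η K) := by
  intro x hx y hy a b ha hb hab
  exact pr_comb (fun x hx y hy => hK hx hy ha hb hab) η hx hy

theorem vol_mono {K L : Set (Fin m → ℝ)} (h : K ⊆ L) (hL : IsCompact L) : vol K ≤ vol L :=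
  measureReal_mono h hL.measure_ne_top

theorem vol_nonneg (K : Set (Fin m → ℝ)) : 0 ≤ vol K := measureReal_nonneg

theorem vol_empty : vol (∅ : Set (Fin m → ℝ)) = 0 := measureReal_empty

theorem pr_empty (η : Fin m → ℝ) : pr η (∅ : Set (Fin (m + 1) → ℝ)) = ∅ := by
  rw [pr_eq, image_empty]

theorem TT_empty : TT (∅ : Set (Fin (m + 1) → ℝ)) = 0 := by
  unfold TT
  simp only [pr_empty, vol_empty]
  exact av_const m 0

theorem TT_nonneg (K : Set (Fin (m + 1) → ℝ)) : 0 ≤ TT K := av_nonneg fun _ _ => vol_nonneg _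

theorem vol_eq_one_of_nonempty {K : Set (Fin 0 → ℝ)} (hK : K.Nonempty) : vol K = 1 := by
  have : K = univ := by
    obtain ⟨x, hx⟩ := hK
    ext y
    simp only [mem_univ, iff_true]
    rwa [Subsingleton.elim y x]
  rw [this, vol, measureReal_def, volume_pi, Measure.pi_of_empty]
  simp

theorem measurable_cs : Measurable (fun p : ℝ × (Fin m → ℝ) => cs p.1 p.2) :=
  continuous_cs.measurable

/-- the map `(t, x) ↦ cs t x` preserves the volume -/
theorem mp_cs : MeasurePreserving (fun p : ℝ × (Fin m → ℝ) => cs p.1 p.2)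
    ((volume : Measure ℝ).prod (volume : Measure (Fin m → ℝ))) volume := by
  have h := (volume_preserving_piFinSuccAbove (fun _ : Fin (m + 1) => ℝ) 0).symm
  have e : (fun p : ℝ × (Fin m → ℝ) => cs p.1 p.2) =
      ⇑(MeasurableEquiv.piFinSuccAbove (fun _ : Fin (m + 1) => ℝ) 0).symm := by
    funext p
    ext i
    refine Fin.cases ?_ (fun i => ?_) i
    · simp [MeasurableEquiv.piFinSuccAbove]
    · simp [MeasurableEquiv.piFinSuccAbove]
  rw [e]
  exact h

/-- volume by slices -/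
theorem volume_slices {K : Set (Fin (m + 1) → ℝ)} (hK : MeasurableSet K) :
    volume K = ∫⁻ t, volume (sl K t) := by
  rw [← mp_cs.measure_preimage hK.nullMeasurableSet, Measure.prod_apply (measurable_cs hK)]
  rfl

/-- volume by fibres in the direction `(1, η)` -/
theorem volume_fibres {K : Set (Fin (m + 1) → ℝ)} (hK : MeasurableSet K) (η : Fin m → ℝ) :
    volume K = ∫⁻ z, volume {s : ℝ | cs s (z + s • η) ∈ K} := by
  have hm : MeasurableSet {p : ℝ × (Fin m → ℝ) | cs p.1 (p.2 + p.1 • η) ∈ K} := by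
    have : Measurable (fun p : ℝ × (Fin m → ℝ) => cs p.1 (p.2 + p.1 • η)) :=
      (continuous_cs.comp (by fun_prop : Continuous
        (fun p : ℝ × (Fin m → ℝ) => (p.1, p.2 + p.1 • η)))).measurable
    exact this hK
  have h1 := Measure.prod_apply (μ := (volume : Measure ℝ)) (ν := (volume : Measure (Fin m → ℝ))) hm
  have h2 := Measure.prod_apply_symm (μ := (volume : Measure ℝ))
    (ν := (volume : Measure (Fin m → ℝ))) hm
  have h3 : ∀ t : ℝ, volume (Prod.mk t ⁻¹' {p : ℝ × (Fin m → ℝ) | cs p.1 (p.2 + p.1 • η) ∈ K})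
      = volume (sl K t) := by
    intro t
    have : Prod.mk t ⁻¹' {p : ℝ × (Fin m → ℝ) | cs p.1 (p.2 + p.1 • η) ∈ K} =
        (fun z => z + t • η) ⁻¹' (sl K t) := rfl
    rw [this, measure_preimage_add_right]
  rw [volume_slices hK]
  rw [h1] at h2
  simp only [h3] at h2
  exact h2

end

end Pool.Agent.W503.EH
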