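import Pool.Agent.W503.EH.Defs

/-!
# Statements of the parts of the proof (each is proved in its own file as `theorem t_X : S_X`)
-/

namespace Pool.Agent.W503.EH

open MeasureTheory Set

/-- **BM.** Brunn-Minkowski, multiplicative form. -/
def S_BM : Prop :=
  ∀ (m : ℕ) (A B C : Set (Fin m → ℝ)), IsCompact A → IsCompact B → IsCompact C →
    A.Nonempty → B.Nonempty → ∀ t : ℝ, 0 < t → t < 1 →
    (∀ x ∈ A, ∀ y ∈ B, (1 - t) • x + t • y ∈ C) →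
    vol A ^ (1 - t) * vol B ^ t ≤ vol C

/-- **BON.** Bonnesen's refinement (weak form). -/
def S_BON : Prop :=
  ∀ (m : ℕ) (A B C : Set (Fin (m + 1) → ℝ)), IsCompact A → IsCompact B → IsCompact C →
    Convex ℝ A → Convex ℝ B → A.Nonempty → B.Nonempty → ∀ t : ℝ, 0 < t → t < 1 →
    (∀ x ∈ A, ∀ y ∈ B, (1 - t) • x + t • y ∈ C) →
    ∀ η : Fin m → ℝ, 0 < vol (pr η A) → 0 < vol (pr η B) → vol A ≤ vol B →
    vol A + (vol B - vol A) * (t * (vol (pr η A) / vol (pr η B)) ^ (1 - t)) ≤ vol C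

/-- **FUB.** Volume by slices, measurability of the volume of the projections of the slices, a set
with projection of volume `0` has volume `0`. -/
def S_FUB : Prop :=
  (∀ (m : ℕ) (K : Set (Fin (m + 1) → ℝ)), IsCompact K → ∀ c : ℝ,
    K ⊆ {x | c ≤ x 0 ∧ x 0 ≤ c + 1} →
    IntervalIntegrable (fun t => vol (sl K t)) volume c (c + 1) ∧
    vol K = ∫ t in c..(c + 1), vol (sl K t)) ∧
  (∀ (m : ℕ) (K : Set (Fin (m + 2) → ℝ)), IsCompact K → ∀ c : ℝ, ∀ η : Fin m → ℝ,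
    IntervalIntegrable (fun t => vol (pr η (sl K t))) volume c (c + 1)) ∧
  (∀ (m : ℕ) (K : Set (Fin (m + 1) → ℝ)), IsCompact K → ∀ η : Fin m → ℝ, vol (pr η K) = 0 →
    vol K = 0)

/-- **SEG.** Volume of the sum with a segment in direction `(1, η)`. -/
def S_SEG : Prop :=
  ∀ (m : ℕ) (L : Set (Fin (m + 1) → ℝ)), IsCompact L → Convex ℝ L → L.Nonempty →
    ∀ (η : Fin m → ℝ) (s : ℝ), 0 ≤ s →
    vol {z | ∃ x ∈ L, ∃ r : ℝ, 0 ≤ r ∧ r ≤ s ∧ z = x + r • cs 1 η} = vol L + s * vol (pr η L)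

/-- **COS.** Two opposite directions: lower bound for the projections of a set between two
hyperplanes. -/
def S_COS : Prop :=
  ∀ (m : ℕ) (K : Set (Fin (m + 2) → ℝ)), IsCompact K → Convex ℝ K → ∀ c : ℝ,
    K ⊆ {x | c ≤ x 0 ∧ x 0 ≤ c + 1} → ∀ η : Fin m → ℝ,
    vol (sl K c) + vol (sl K (c + 1)) + 2 * (∫ t in c..(c + 1), vol (pr η (sl K t))) ≤
      vol (pr (cs 1 η) K) + vol (pr (-cs 1 η) K)

/-- **VAL.** The volume of the projection is a valuation. -/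
def S_VAL : Prop :=
  ∀ (m : ℕ) (K : Set (Fin (m + 1) → ℝ)), IsCompact K → Convex ℝ K → ∀ (c : ℝ) (η : Fin m → ℝ),
    vol (pr η (K ∩ {x | x 0 ≤ c})) + vol (pr η (K ∩ {x | c ≤ x 0})) ≤
      vol (pr η K) + vol (sl K c)

/-- **ALG.** The elementary part of the interval inequality. -/
def S_ALG : Prop :=
  ∀ (m : ℕ) (f0 f1 F T : ℝ) (p0 p1 G : (Fin m → ℝ) → ℝ), 0 ≤ f0 → f0 ≤ f1 →
    (∀ η, Sgn η → 0 ≤ p0 η) → (∀ η, Sgn η → 0 ≤ p1 η) →
    (∀ η, Sgn η → min (p0 η) (p1 η) ≤ G η) →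
    (∀ η, Sgn η → 0 < p0 η → 0 < p1 η →
      f0 + (f1 - f0) * (∫ t in (0:ℝ)..1, t * (p0 η / p1 η) ^ (1 - t)) ≤ F) →
    (∀ η, Sgn η → 0 < p0 η → 0 < p1 η →
      p0 η * (∫ t in (0:ℝ)..1, (p1 η / p0 η) ^ t) ≤ G η) →
    (∀ η, Sgn η → p0 η = 0 → f0 = 0) → (∀ η, Sgn η → p1 η = 0 → f1 = 0) →
    0 ≤ F → f1 ≤ T → (f0 + f1) / 2 + av m G ≤ T →
    f0 + f1 + av m (fun η => min (p0 η) (p1 η)) ≤ F + T

/-- **INT.** The inequality for a set between two hyperplanes at distance one. -/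
def S_INT : Prop :=
  ∀ (m : ℕ) (K : Set (Fin (m + 2) → ℝ)), IsCompact K → Convex ℝ K → ∀ c : ℝ,
    K ⊆ {x | c ≤ x 0 ∧ x 0 ≤ c + 1} → (sl K c).Nonempty → (sl K (c + 1)).Nonempty →
    vol (sl K c) + vol (sl K (c + 1)) +
      av m (fun η => min (vol (pr η (sl K c))) (vol (pr η (sl K (c + 1))))) ≤ vol K + TT K

/-- **BOX.** The projections of a lattice box. -/
def S_BOX : Prop :=
  ∀ (m : ℕ) (a : Fin (m + 1) → ℤ) (n : Fin (m + 1) → ℕ) (η : Fin m → ℝ), Sgn η →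
    vol (pr η (bx a n)) ≤ el 1 (fun i => (n i : ℝ))

/-- **REC.** Recurrences for the elementary symmetric polynomials. -/
def S_REC : Prop :=
  ∀ (m : ℕ) (n0 : ℝ) (n : Fin m → ℝ),
    el 1 (cs n0 n) = ∏ j, n j + n0 * el 1 n ∧
    lo (cs n0 n) = lo n + el 1 n + n0 * lo n

/-- **SUM.** Summation over the integer slices. -/
def S_SUM : Prop :=
  ∀ (m : ℕ) (K : Set (Fin (m + 2) → ℝ)), IsCompact K → Convex ℝ K →
    ∀ (a : Fin (m + 2) → ℤ) (n : Fin (m + 2) → ℕ), K ⊆ bx a n →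
    ∑ j ∈ Finset.Icc (a 0) (a 0 + n 0), (vol (sl K (j : ℝ)) + TT (sl K (j : ℝ))) ≤
      vol K + TT K + el 1 (fun i : Fin (m + 1) => (n i.succ : ℝ))

/-- **MAIN.** The inequality with `TT`. -/
def S_MAIN : Prop :=
  ∀ (m : ℕ) (K : Set (Fin (m + 1) → ℝ)), IsCompact K → Convex ℝ K →
    ∀ (a : Fin (m + 1) → ℤ) (n : Fin (m + 1) → ℕ), K ⊆ bx a n →
    ((K ∩ lat (m + 1)).ncard : ℝ) ≤ vol K + TT K + lo (fun i => (n i : ℝ))

/-- **BES.** Bessel's inequality for the coordinates of the sign vectors `(1, η)`. -/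
def S_BES : Prop :=
  ∀ (m : ℕ) (s : (Fin m → ℝ) → ℝ), (∀ η, Sgn η → |s η| ≤ 1) →
    (av m s) ^ 2 + ∑ i, (av m (fun η => s η * η i)) ^ 2 ≤ 1

/-- **THICK.** The functional `TT` is at most half the surface area. -/
def S_THICK : Prop :=
  ∀ (m : ℕ) (K D : Set (Fin (m + 1) → ℝ)), IsCompact K → Convex ℝ K → K.Nonempty → IsCompact D →
    ∀ ρ : ℝ, 0 ≤ ρ → (∀ x ∈ K, ∀ z : Fin (m + 1) → ℝ, ∑ i, z i ^ 2 ≤ ρ ^ 2 → x + z ∈ D) →
    vol K + 2 * ρ * TT K ≤ vol D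

/-- volume of the unit ball of dimension `j` -/
noncomputable def ka (j : ℕ) : ℝ := volume.real (Metric.closedBall (0 : EuclideanSpace ℝ (Fin j)) 1)

/-- the lattice box in Euclidean space -/
def ebx {m : ℕ} (a : Fin m → ℤ) (n : Fin m → ℕ) : Set (EuclideanSpace ℝ (Fin m)) :=
  {x | ∀ i, (a i : ℝ) ≤ x i ∧ x i ≤ a i + n i}

/-- **STE.** Steiner's formula for boxes. -/
def S_STE : Prop :=
  ∀ (m : ℕ) (a : Fin m → ℤ) (n : Fin m → ℕ) (ρ : ℝ), 0 ≤ ρ →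
    volume.real (Metric.cthickening ρ (ebx a n)) =
      ∑ r ∈ Finset.range (m + 1), ka r * ρ ^ r * el r (fun i => (n i : ℝ))

end Pool.Agent.W503.EH
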