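import Pool.Agent.W503.EH.Basic
import Pool.Agent.W503.EH.Stmts

/-!
# EH-ALG: the elementary part of the interval inequality
-/

namespace Pool.Agent.W503.EH

open MeasureTheory Set

/-- Chebyshev's inequality for the functions `t r^(1-t)` and `r^(-(1-t))` -/
theorem cheb {r : ℝ} (hr0 : 0 < r) (hr1 : r < 1) :
    1 / 2 ≤ (∫ t in (0:ℝ)..1, t * r ^ (1 - t)) * (∫ t in (0:ℝ)..1, (1 / r) ^ t) := by
  have hs0 : 0 < 1 / r := by positivity
  have hs1 : 1 < 1 / r := by rw [lt_div_iff₀ hr0]; linarith
  -- the second integral reflected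
  have e1 : ∫ t in (0:ℝ)..1, (1 / r) ^ t = ∫ t in (0:ℝ)..1, (1 / r) ^ (1 - t) := by
    rw [intervalIntegral.integral_comp_sub_left (fun t => (1 / r) ^ t) 1]
    simp
  rw [e1]
  have ha : Continuous (fun t : ℝ => t * r ^ (1 - t)) :=
    continuous_id.mul (Continuous.rpow continuous_const (by fun_prop) (fun x => Or.inl hr0.ne'))
  have hb : Continuous (fun t : ℝ => (1 / r) ^ (1 - t)) :=
    Continuous.rpow continuous_const (by fun_prop) (fun x => Or.inl hs0.ne')
  have hab : ∀ t : ℝ, t * r ^ (1 - t) * (1 / r) ^ (1 - t) = t := by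
    intro t
    rw [mul_assoc, ← Real.mul_rpow hr0.le hs0.le]
    rw [mul_one_div_cancel hr0.ne', Real.one_rpow, mul_one]
  have hbanti : ∀ s t : ℝ, s ≤ t → (1 / r) ^ (1 - t) ≤ (1 / r) ^ (1 - s) := by
    intro s t hst
    exact Real.rpow_le_rpow_of_exponent_le hs1.le (by linarith)
  have hamono : ∀ s t : ℝ, 0 ≤ s → s ≤ t → s * r ^ (1 - s) ≤ t * r ^ (1 - t) := by
    intro s t hs hst
    apply mul_le_mul hst _ (Real.rpow_nonneg hr0.le _) (hs.trans hst)
    exact Real.rpow_le_rpow_of_exponent_ge hr0 hr1.le (by linarith)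
  set B := ∫ t in (0:ℝ)..1, (1 / r) ^ (1 - t) with hB
  -- the point where `b` takes its mean value
  have hB1 : 1 ≤ B := by
    have : ∫ t in (0:ℝ)..1, (1 : ℝ) ≤ B := by
      apply intervalIntegral.integral_mono_on (by norm_num) (by simp) (hb.intervalIntegrable _ _)
      intro t ht
      have := hbanti t 1 ht.2
      simpa using this
    simpa using this
  have hB2 : B ≤ 1 / r := by
    have : B ≤ ∫ t in (0:ℝ)..1, (1 / r : ℝ) := by
      apply intervalIntegral.integral_mono_on (by norm_num) (hb.intervalIntegrable _ _) (by simp)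
      intro t ht
      have := hbanti 0 t ht.1
      simpa using this
    simpa using this
  obtain ⟨s, hs, hsB⟩ : ∃ s ∈ Icc (0:ℝ) 1, (1 / r) ^ (1 - s) = B := by
    have := intermediate_value_Icc' (f := fun t : ℝ => (1 / r) ^ (1 - t)) (a := 0) (b := 1)
      (by norm_num) hb.continuousOn
    simp only [sub_self, Real.rpow_zero, sub_zero, Real.rpow_one] at this
    exact this ⟨hB1, hB2⟩
  have hkey : ∫ t in (0:ℝ)..1, (t * r ^ (1 - t) - s * r ^ (1 - s)) *
      ((1 / r) ^ (1 - t) - B) ≤ ∫ t in (0:ℝ)..1, (0 : ℝ) := by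
    have hc0 : Continuous (fun t : ℝ => (t * r ^ (1 - t) - s * r ^ (1 - s)) *
        ((1 / r) ^ (1 - t) - B)) := (ha.sub continuous_const).mul (hb.sub continuous_const)
    apply intervalIntegral.integral_mono_on (by norm_num) (hc0.intervalIntegrable _ _) (by simp)
    intro t ht
    rw [← hsB]
    rcases le_total t s with h | h
    · exact mul_nonpos_of_nonpos_of_nonneg (sub_nonpos.2 (hamono t s ht.1 h))
        (sub_nonneg.2 (hbanti t s h))
    · exact mul_nonpos_of_nonneg_of_nonpos (sub_nonneg.2 (hamono s t hs.1 h))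
        (sub_nonpos.2 (hbanti s t h))
  have hexp : ∫ t in (0:ℝ)..1, (t * r ^ (1 - t) - s * r ^ (1 - s)) * ((1 / r) ^ (1 - t) - B) =
      1 / 2 - (∫ t in (0:ℝ)..1, t * r ^ (1 - t)) * B := by
    have e2 : (fun t : ℝ => (t * r ^ (1 - t) - s * r ^ (1 - s)) * ((1 / r) ^ (1 - t) - B)) =
        fun t : ℝ => (t - B * (t * r ^ (1 - t))) -
          (s * r ^ (1 - s)) * ((1 / r) ^ (1 - t) - B) := by
      funext t
      have := hab t
      linear_combination this
    have hca : Continuous (fun t : ℝ => B * (t * r ^ (1 - t))) := continuous_const.mul ha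
    have hcb : Continuous (fun t : ℝ => (1 / r) ^ (1 - t) - B) := hb.sub continuous_const
    have hc1 : Continuous (fun t : ℝ => t - B * (t * r ^ (1 - t))) := continuous_id.sub hca
    have hc2 : Continuous (fun t : ℝ => (s * r ^ (1 - s)) * ((1 / r) ^ (1 - t) - B)) :=
      continuous_const.mul hcb
    rw [e2, intervalIntegral.integral_sub (f := fun t : ℝ => t - B * (t * r ^ (1 - t)))
      (g := fun t : ℝ => (s * r ^ (1 - s)) * ((1 / r) ^ (1 - t) - B))
      (hc1.intervalIntegrable _ _) (hc2.intervalIntegrable _ _),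
      intervalIntegral.integral_sub (f := fun t : ℝ => t) (g := fun t : ℝ => B * (t * r ^ (1 - t)))
      (continuous_id.intervalIntegrable _ _) (hca.intervalIntegrable _ _),
      intervalIntegral.integral_const_mul, intervalIntegral.integral_const_mul,
      intervalIntegral.integral_sub (f := fun t : ℝ => (1 / r) ^ (1 - t)) (g := fun _ : ℝ => B)
      (hb.intervalIntegrable _ _) (by simp), ← hB]
    simp
    ring
  rw [hexp] at hkey
  simp only [intervalIntegral.integral_zero] at hkey
  linarith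

theorem t_ALG : S_ALG := by
  intro m f0 f1 F T p0 p1 G hf0 hf01 hp0 hp1 hmin hF hG hz0 hz1 hF0 hT1 hT2
  have hav : av m (fun η => min (p0 η) (p1 η)) ≤ av m G := av_mono hmin
  -- case 0
  by_cases h0 : ∃ η, Sgn η ∧ p1 η = 0
  · obtain ⟨η, hη, h⟩ := h0
    have h1 := hz1 η hη h
    linarith
  push Not at h0
  have hp1' : ∀ η, Sgn η → 0 < p1 η := fun η hη => lt_of_le_of_ne (hp1 η hη) (h0 η hη).symm
  -- case 1
  by_cases h1 : ∃ η, Sgn η ∧ p1 η ≤ p0 η
  · obtain ⟨η, hη, h⟩ := h1
    have hq1 := hp1' η hη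
    have hq0 : 0 < p0 η := hq1.trans_le h
    have h2 := hF η hη hq0 hq1
    have hr : 1 ≤ p0 η / p1 η := by rw [le_div_iff₀ hq1]; linarith
    have hc : Continuous (fun t : ℝ => t * (p0 η / p1 η) ^ (1 - t)) :=
      continuous_id.mul (Continuous.rpow continuous_const (by fun_prop)
        (fun x => Or.inl (by positivity)))
    have h3 : ∫ t in (0:ℝ)..1, t ≤ ∫ t in (0:ℝ)..1, t * (p0 η / p1 η) ^ (1 - t) := by
      apply intervalIntegral.integral_mono_on (by norm_num) (continuous_id.intervalIntegrable _ _)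
        (hc.intervalIntegrable _ _)
      intro t ht
      have : 1 ≤ (p0 η / p1 η) ^ (1 - t) := Real.one_le_rpow hr (by linarith [ht.2])
      exact le_mul_of_one_le_right ht.1 this
    have h4 : ∫ t in (0:ℝ)..1, t = (1 / 2 : ℝ) := by simp
    rw [h4] at h3
    have h5 : (f1 - f0) * (1 / 2) ≤ (f1 - f0) *
        ∫ t in (0:ℝ)..1, t * (p0 η / p1 η) ^ (1 - t) :=
      mul_le_mul_of_nonneg_left h3 (by linarith)
    linarith
  push Not at h1
  -- case 2
  have hmin' : av m (fun η => min (p0 η) (p1 η)) = av m p0 :=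
    av_congr fun η hη => min_eq_left (h1 η hη).le
  rw [hmin'] at hav ⊢
  have hone : Sgn (fun _ : Fin m => (1 : ℝ)) := fun i => Or.inl rfl
  have hFf : f0 ≤ F := by
    rcases (hp0 _ hone).eq_or_lt with h | h
    · rw [hz0 _ hone h.symm]; exact hF0
    · have h2 := hF _ hone h (hp1' _ hone)
      have h3 : 0 ≤ ∫ t in (0:ℝ)..1, t * (p0 (fun _ => 1) / p1 (fun _ => 1)) ^ (1 - t) := by
        apply intervalIntegral.integral_nonneg (by norm_num)
        intro t ht
        have := hp1' _ hone
        exact mul_nonneg ht.1 (Real.rpow_nonneg (by positivity) _)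
      have := mul_nonneg (sub_nonneg.2 hf01) h3
      linarith
  have hprod : ∀ η, Sgn η → (f1 - f0) / 2 * p0 η ≤ (F - f0) * G η := by
    intro η hη
    have hG0 : 0 ≤ G η := (le_min (hp0 η hη) (hp1 η hη)).trans (hmin η hη)
    rcases (hp0 η hη).eq_or_lt with h | h
    · rw [← h, mul_zero]
      exact mul_nonneg (by linarith) hG0
    · have hq1 := hp1' η hη
      have hr1 : p0 η / p1 η < 1 := by rw [div_lt_one hq1]; exact h1 η hη
      have hr0 : 0 < p0 η / p1 η := by positivity
      have h2 := hF η hη h hq1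
      have h3 := hG η hη h hq1
      have h4 := cheb hr0 hr1
      rw [one_div_div] at h4
      set I1 := ∫ t in (0:ℝ)..1, t * (p0 η / p1 η) ^ (1 - t) with hI1
      set I2 := ∫ t in (0:ℝ)..1, (p1 η / p0 η) ^ t with hI2
      have hI1' : 0 ≤ I1 := by
        apply intervalIntegral.integral_nonneg (by norm_num)
        intro t ht
        exact mul_nonneg ht.1 (Real.rpow_nonneg hr0.le _)
      have hI2' : 0 ≤ I2 := by
        apply intervalIntegral.integral_nonneg (by norm_num)
        intro t ht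
        exact Real.rpow_nonneg (by positivity) _
      calc (f1 - f0) / 2 * p0 η = ((f1 - f0) * p0 η) * (1 / 2) := by ring
        _ ≤ ((f1 - f0) * p0 η) * (I1 * I2) :=
            mul_le_mul_of_nonneg_left h4 (mul_nonneg (by linarith) h.le)
        _ = ((f1 - f0) * I1) * (p0 η * I2) := by ring
        _ ≤ (F - f0) * G η := by
            apply mul_le_mul (by linarith) h3 (mul_nonneg h.le hI2') (by linarith)
  have hprod' : (f1 - f0) / 2 * av m p0 ≤ (F - f0) * av m G := by
    rw [← av_const_mul, ← av_const_mul]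
    exact av_mono hprod
  by_cases hx : av m p0 ≤ F - f0
  · linarith
  push Not at hx
  have hg0 : 0 < av m p0 := by linarith
  -- (g0 - x)(G - g0) ≥ 0
  have h5 : 0 ≤ (av m p0 - (F - f0)) * (av m G - av m p0) :=
    mul_nonneg (by linarith) (by linarith)
  have h6 : (f1 - f0) / 2 ≤ (F - f0) + av m G - av m p0 := by
    have : av m p0 * ((f1 - f0) / 2) ≤ av m p0 * ((F - f0) + av m G - av m p0) := by nlinarith
    exact le_of_mul_le_mul_left this hg0
  linarith

end Pool.Agent.W503.EH
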