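import Pool.Agent.W503.EH.Int

/-!
# EH-SUM: summation over the integer slices
-/

namespace Pool.Agent.W503.EH

open MeasureTheory Set

section
variable {m : ℕ}

theorem TT_mono {K L : Set (Fin (m + 1) → ℝ)} (h : K ⊆ L) (hL : IsCompact L) : TT K ≤ TT L :=
  av_mono fun η _ => vol_mono (pr_mono h η) (isCompact_pr hL η)

theorem volume_hyper {K : Set (Fin (m + 1) → ℝ)} (hK : IsCompact K) (c : ℝ)
    (h : ∀ x ∈ K, x 0 = c) : volume K = 0 := by
  rw [volume_slices hK.measurableSet, ← lintegral_zero (μ := (volume : Measure ℝ))]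
  have : ∀ᵐ t : ℝ, t ≠ c := by
    simp [ae_iff]
  apply lintegral_congr_ae
  filter_upwards [this] with t ht
  have : sl K t = ∅ := by
    ext x
    simp only [mem_empty_iff_false, iff_false]
    intro hx
    exact ht (h _ hx)
  rw [this]
  simp

/-- the part of `K` between the heights `b` and `c` -/
def part (K : Set (Fin (m + 1) → ℝ)) (b c : ℝ) : Set (Fin (m + 1) → ℝ) :=
  K ∩ {x | b ≤ x 0 ∧ x 0 ≤ c}

theorem isCompact_part {K : Set (Fin (m + 1) → ℝ)} (hK : IsCompact K) (b c : ℝ) :
    IsCompact (part K b c) :=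
  hK.inter_right ((isClosed_le continuous_const (continuous_apply 0)).inter
    (isClosed_le (continuous_apply 0) continuous_const))

theorem convex_part {K : Set (Fin (m + 1) → ℝ)} (hK : Convex ℝ K) (b c : ℝ) :
    Convex ℝ (part K b c) := by
  refine hK.inter ?_
  intro x hx y hy s t hs ht hst
  obtain ⟨hx1, hx2⟩ := hx
  obtain ⟨hy1, hy2⟩ := hy
  simp only [mem_ofPred_eq, Pi.add_apply, Pi.smul_apply, smul_eq_mul]
  constructor
  · calc b = s * b + t * b := by rw [← add_mul, hst, one_mul]
      _ ≤ _ := by gcongr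
  · calc s * x 0 + t * y 0 ≤ s * c + t * c := by gcongr
      _ = c := by rw [← add_mul, hst, one_mul]

theorem sl_part {K : Set (Fin (m + 1) → ℝ)} {b c t : ℝ} (h1 : b ≤ t) (h2 : t ≤ c) :
    sl (part K b c) t = sl K t := by
  ext x
  constructor
  · intro hx
    exact hx.1
  · intro hx
    exact ⟨hx, h1, h2⟩

/-- quasi-concavity of the volumes of the projections of the slices -/
theorem quasi (h4 : S_BM) {K : Set (Fin (m + 2) → ℝ)} (hK : IsCompact K) (hKc : Convex ℝ K)
    (η : Fin m → ℝ) {i j l : ℝ} (hij : i ≤ j) (hjl : j ≤ l) (hi : (sl K i).Nonempty)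
    (hl : (sl K l).Nonempty) :
    min (vol (pr η (sl K i))) (vol (pr η (sl K l))) ≤ vol (pr η (sl K j)) := by
  rcases hij.eq_or_lt with rfl | hij
  · exact min_le_left _ _
  rcases hjl.eq_or_lt with rfl | hjl
  · exact min_le_right _ _
  have hil : 0 < l - i := by linarith
  have ht0 : 0 < (j - i) / (l - i) := div_pos (by linarith) hil
  have ht1 : (j - i) / (l - i) < 1 := by rw [div_lt_one hil]; linarith
  refine (min_le_rpow (vol_nonneg _) (vol_nonneg _) ht0 ht1).trans ?_
  refine h4 m _ _ _ (isCompact_pr (isCompact_sl hK _) η) (isCompact_pr (isCompact_sl hK _) η)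
    (isCompact_pr (isCompact_sl hK _) η) (pr_nonempty hi η) (pr_nonempty hl η) _ ht0 ht1 ?_
  intro x hx y hy
  refine pr_comb ?_ η hx hy
  intro x hx y hy
  have := sl_comb hKc (by linarith : 0 ≤ 1 - (j - i) / (l - i)) ht0.le (by ring) hx hy
  have e : (1 - (j - i) / (l - i)) * i + (j - i) / (l - i) * l = j := by
    field_simp
    ring
  rwa [e] at this

/-- the chain of slabs -/
theorem chain (h1 : S_INT) (h2 : S_VAL) {K : Set (Fin (m + 2) → ℝ)} (hK : IsCompact K)
    (hKc : Convex ℝ K) (c : ℝ) (N : ℕ) (hne : ∀ i ≤ N, (sl K (c + i)).Nonempty) :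
    ∑ i ∈ Finset.range (N + 1), vol (sl K (c + i)) +
      ∑ i ∈ Finset.range N, av m (fun η => min (vol (pr η (sl K (c + i))))
        (vol (pr η (sl K (c + (i + 1 : ℕ)))))) ≤ vol (part K c (c + N)) + TT (part K c (c + N)) := by
  induction N with
  | zero =>
    simp only [zero_add, Finset.range_one, Finset.sum_singleton, Finset.range_zero,
      Finset.sum_empty, add_zero, Nat.cast_zero]
    have h3 := vol_sl_le_TT (isCompact_part hK c c) c
    rw [sl_part le_rfl le_rfl] at h3
    have := vol_nonneg (part K c c)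
    linarith
  | succ N ih =>
    have ih := ih fun i hi => hne i (by omega)
    rw [Finset.sum_range_succ (fun i : ℕ => vol (sl K (c + i))) (N + 1),
      Finset.sum_range_succ (fun i : ℕ => av m (fun η => min (vol (pr η (sl K (c + i))))
        (vol (pr η (sl K (c + (i + 1 : ℕ))))))) N]
    set b : ℝ := c + N with hb
    have hcb : c ≤ b := by rw [hb]; have : (0 : ℝ) ≤ N := Nat.cast_nonneg N; linarith
    have hb1 : c + ((N + 1 : ℕ) : ℝ) = b + 1 := by push_cast; rw [hb]; ring
    rw [hb1]
    -- the two parts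
    have e1 : part K c (b + 1) ∩ {x | x 0 ≤ b} = part K c b := by
      ext x
      simp only [part, mem_inter_iff, mem_ofPred_eq]
      constructor
      · rintro ⟨⟨h1, h2, h3⟩, h4⟩
        exact ⟨h1, h2, h4⟩
      · rintro ⟨h1, h2, h3⟩
        exact ⟨⟨h1, h2, by linarith⟩, h3⟩
    have e2 : part K c (b + 1) ∩ {x | b ≤ x 0} = part K b (b + 1) := by
      ext x
      simp only [part, mem_inter_iff, mem_ofPred_eq]
      constructor
      · rintro ⟨⟨h1, h2, h3⟩, h4⟩
        exact ⟨h1, h4, h3⟩
      · rintro ⟨h1, h2, h3⟩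
        exact ⟨⟨h1, by linarith, h3⟩, h2⟩
    have hP := isCompact_part hK b (b + 1)
    have hQ := isCompact_part hK c b
    have hT : TT (part K c b) + TT (part K b (b + 1)) ≤
        TT (part K c (b + 1)) + vol (sl K b) := by
      have h3 : ∀ η : Fin (m + 1) → ℝ, Sgn η → vol (pr η (part K c b)) +
          vol (pr η (part K b (b + 1))) ≤ vol (pr η (part K c (b + 1))) + vol (sl K b) := by
        intro η _
        have := h2 (m + 1) _ (isCompact_part hK c (b + 1)) (convex_part hKc c (b + 1)) b η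
        rwa [e1, e2, sl_part hcb (by linarith)] at this
      have h4 := av_mono h3
      rw [av_add, av_add, av_const] at h4
      exact h4
    have hV : vol (part K c b) + vol (part K b (b + 1)) ≤ vol (part K c (b + 1)) := by
      have h3 := measureReal_union_add_inter (μ := (volume : Measure (Fin (m + 2) → ℝ)))
        (s := part K c b) hP.measurableSet hQ.measure_ne_top hP.measure_ne_top
      have h4 : volume (part K c b ∩ part K b (b + 1)) = 0 := by
        apply volume_hyper (hQ.inter hP) b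
        rintro x ⟨⟨_, _, h5⟩, ⟨_, h6, _⟩⟩
        exact le_antisymm h5 h6
      rw [measureReal_def (s := part K c b ∩ part K b (b + 1)), h4, ENNReal.toReal_zero,
        add_zero] at h3
      unfold vol
      rw [← h3]
      apply measureReal_mono _ (isCompact_part hK c (b + 1)).measure_ne_top
      rintro x (⟨h5, h6, h7⟩ | ⟨h5, h6, h7⟩)
      · exact ⟨h5, h6, by linarith⟩
      · exact ⟨h5, by linarith, h7⟩
    have hI := h1 m (part K b (b + 1)) hP (convex_part hKc b (b + 1)) b
      (fun x hx => hx.2) (by rw [sl_part le_rfl (by linarith)]; exact hne N (by omega))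
      (by rw [sl_part (by linarith) le_rfl, ← hb1]; exact hne (N + 1) le_rfl)
    rw [sl_part le_rfl (by linarith), sl_part (by linarith) le_rfl] at hI
    linarith

/-- unimodal sequences -/
theorem unimodal (q : ℕ → ℝ) (N : ℕ) (hq : ∀ i j l, i ≤ j → j ≤ l → l ≤ N → min (q i) (q l) ≤ q j) :
    ∃ k ≤ N, ∑ i ∈ Finset.range (N + 1), q i ≤
      ∑ i ∈ Finset.range N, min (q i) (q (i + 1)) + q k := by
  induction N with
  | zero => exact ⟨0, le_rfl, by simp⟩
  | succ N ih =>
    obtain ⟨k, hk, h⟩ := ih fun i j l h1 h2 h3 => hq i j l h1 h2 (by omega)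
    rw [Finset.sum_range_succ q (N + 1), Finset.sum_range_succ (fun i => min (q i) (q (i + 1))) N]
    rcases le_total (q (N + 1)) (q N) with h5 | h5
    · refine ⟨k, by omega, ?_⟩
      rw [min_eq_right h5]
      linarith
    · have h6 := hq k N (N + 1) hk (by omega) le_rfl
      rw [min_eq_left h5]
      rcases le_total (q k) (q (N + 1)) with h7 | h7
      · rw [min_eq_left h7] at h6
        exact ⟨N + 1, le_rfl, by linarith⟩
      · rw [min_eq_right h7] at h6
        exact ⟨k, by omega, by linarith⟩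

theorem isCompact_bx {m : ℕ} (a : Fin m → ℤ) (n : Fin m → ℕ) : IsCompact (bx a n) := by
  have : bx a n = Icc (fun i => (a i : ℝ)) (fun i => (a i : ℝ) + n i) := by
    ext x
    simp only [bx, mem_ofPred_eq, mem_Icc, Pi.le_def]
    exact ⟨fun h => ⟨fun i => (h i).1, fun i => (h i).2⟩, fun h i => ⟨h.1 i, h.2 i⟩⟩
  rw [this]
  exact isCompact_Icc

end

theorem t_SUM (h1 : S_INT) (h2 : S_VAL) (h3 : S_BOX) (h4 : S_BM) : S_SUM := by
  intro m K hK hKc a n hKa
  classical
  set E : ℝ := el 1 (fun i : Fin (m + 1) => (n i.succ : ℝ)) with hE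
  have hE0 : 0 ≤ E := Finset.sum_nonneg fun s _ => Finset.prod_nonneg fun j _ => Nat.cast_nonneg _
  let J := (Finset.Icc (a 0) (a 0 + n 0)).filter (fun j : ℤ => (sl K (j : ℝ)).Nonempty)
  have hz : ∀ j : ℤ, ¬ (sl K (j : ℝ)).Nonempty → vol (sl K (j : ℝ)) + TT (sl K (j : ℝ)) = 0 := by
    intro j hj
    rw [not_nonempty_iff_eq_empty] at hj
    rw [hj, vol_empty, TT_empty, add_zero]
  rcases J.eq_empty_or_nonempty with hJ | hJ
  · rw [Finset.sum_eq_zero]
    · have := vol_nonneg K
      have := TT_nonneg K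
      linarith
    · intro j hj
      apply hz
      intro hne
      have : j ∈ J := Finset.mem_filter.2 ⟨hj, hne⟩
      rw [hJ] at this
      exact absurd this (Finset.notMem_empty j)
  let j0 := J.min' hJ
  let j1 := J.max' hJ
  have hj0 : j0 ∈ J := Finset.min'_mem _ _
  have hj1 : j1 ∈ J := Finset.max'_mem _ _
  have hj01 : j0 ≤ j1 := Finset.min'_le _ _ hj1
  obtain ⟨N, hN⟩ := Int.le.dest hj01
  have hN' : (j1 : ℝ) = j0 + N := by rw [← hN]; push_cast; rfl
  have hne0 : (sl K (j0 : ℝ)).Nonempty := (Finset.mem_filter.1 hj0).2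
  have hne1 : (sl K (j1 : ℝ)).Nonempty := (Finset.mem_filter.1 hj1).2
  have hne : ∀ i ≤ N, (sl K ((j0 : ℝ) + i)).Nonempty := by
    intro i hi
    rcases Nat.eq_zero_or_pos N with hN0 | hN0
    · have : i = 0 := by omega
      subst this
      simpa using hne0
    obtain ⟨x, hx⟩ := hne0
    obtain ⟨y, hy⟩ := hne1
    have hNpos : (0 : ℝ) < N := by exact_mod_cast hN0
    have hiN : (i : ℝ) ≤ N := by exact_mod_cast hi
    have := sl_comb hKc (a := 1 - i / N) (b := i / N)
      (by rw [sub_nonneg, div_le_one hNpos]; exact hiN) (by positivity) (by ring) hx hy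
    have e : (1 - (i : ℝ) / N) * (j0 : ℝ) + i / N * (j1 : ℝ) = j0 + i := by
      rw [hN']
      field_simp
      ring
    rw [e] at this
    exact ⟨_, this⟩
  -- reindexing
  have hsum : ∑ j ∈ Finset.Icc (a 0) (a 0 + n 0), (vol (sl K (j : ℝ)) + TT (sl K (j : ℝ))) =
      ∑ i ∈ Finset.range (N + 1), (vol (sl K ((j0 : ℝ) + i)) + TT (sl K ((j0 : ℝ) + i))) := by
    have hsub : Finset.Icc j0 j1 ⊆ Finset.Icc (a 0) (a 0 + n 0) := by
      have h5 := (Finset.mem_filter.1 hj0).1
      have h6 := (Finset.mem_filter.1 hj1).1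
      rw [Finset.mem_Icc] at h5 h6
      exact Finset.Icc_subset_Icc h5.1 h6.2
    rw [← Finset.sum_subset hsub]
    · refine Finset.sum_bij' (fun j _ => (j - j0).toNat) (fun i _ => j0 + (i : ℤ)) ?_ ?_ ?_ ?_ ?_
      · intro j hj
        rw [Finset.mem_Icc] at hj
        rw [Finset.mem_range]
        omega
      · intro i hi
        rw [Finset.mem_range] at hi
        rw [Finset.mem_Icc]
        omega
      · intro j hj
        rw [Finset.mem_Icc] at hj
        omega
      · intro i hi
        omega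
      · intro j hj
        rw [Finset.mem_Icc] at hj
        have : (j0 : ℝ) + ((j - j0).toNat : ℝ) = j := by
          have h5 : ((j - j0).toNat : ℤ) = j - j0 := Int.toNat_of_nonneg (by omega)
          have h6 : (((j - j0).toNat : ℤ) : ℝ) = (j : ℝ) - j0 := by rw [h5]; push_cast; rfl
          have h7 : (((j - j0).toNat : ℤ) : ℝ) = ((j - j0).toNat : ℝ) := by push_cast; rfl
          rw [← h7, h6]
          ring
        rw [this]
    · intro j hj hj'
      apply hz
      intro hne
      have : j ∈ J := Finset.mem_filter.2 ⟨hj, hne⟩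
      exact hj' (Finset.mem_Icc.2 ⟨Finset.min'_le _ _ this, Finset.le_max' _ _ this⟩)
  rw [hsum, Finset.sum_add_distrib]
  have hch := chain h1 h2 hK hKc (j0 : ℝ) N hne
  have hpart : part K (j0 : ℝ) (j0 + N) ⊆ K := inter_subset_left
  have hv := vol_mono hpart hK
  have ht := TT_mono hpart hK
  -- the sum of the `TT`
  have hTT : ∑ i ∈ Finset.range (N + 1), TT (sl K ((j0 : ℝ) + i)) ≤
      ∑ i ∈ Finset.range N, av m (fun η => min (vol (pr η (sl K ((j0 : ℝ) + i))))
        (vol (pr η (sl K ((j0 : ℝ) + (i + 1 : ℕ)))))) + E := by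
    unfold TT
    rw [← av_sum, ← av_sum, ← av_const m E, ← av_add]
    apply av_mono
    intro η hη
    obtain ⟨k, hk, h5⟩ := unimodal (fun i => vol (pr η (sl K ((j0 : ℝ) + i)))) N (by
      intro i j l hij hjl hl
      refine quasi h4 hK hKc η ?_ ?_ (hne i (by omega)) (hne l hl)
      · have : (i : ℝ) ≤ j := by exact_mod_cast hij
        linarith
      · have : (j : ℝ) ≤ l := by exact_mod_cast hjl
        linarith)
    refine h5.trans ?_
    have h6 : vol (pr η (sl K ((j0 : ℝ) + k))) ≤ E := by
      refine (vol_mono (pr_mono ?_ η) (isCompact_pr (isCompact_bx _ _) η)).trans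
        (h3 m (fun i => a i.succ) (fun i => n i.succ) η hη)
      intro x hx i
      simpa using hKa hx i.succ
    linarith
  linarith

end Pool.Agent.W503.EH
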