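import Pool.Agent.W503.EH.Basic
import Pool.Agent.W503.EH.Stmts

/-!
# EH-VAL: valuation property of projections, and EH-FUB
-/

namespace Pool.Agent.W503.EH

open MeasureTheory Set

theorem t_VAL : S_VAL := by
  intro m K hK hKc c η
  set K1 := K ∩ {x : Fin (m + 1) → ℝ | x 0 ≤ c}
  set K2 := K ∩ {x : Fin (m + 1) → ℝ | c ≤ x 0}
  have hK1 : IsCompact K1 := hK.inter_right (isClosed_le (continuous_apply 0) continuous_const)
  have hK2 : IsCompact K2 := hK.inter_right (isClosed_le continuous_const (continuous_apply 0))
  have h1 := isCompact_pr hK1 η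
  have h2 := isCompact_pr hK2 η
  have h3 := measureReal_union_add_inter (μ := (volume : Measure (Fin m → ℝ)))
    (s := pr η K1) h2.measurableSet h1.measure_ne_top h2.measure_ne_top
  have h4 : volume.real (pr η K1 ∪ pr η K2) ≤ vol (pr η K) :=
    measureReal_mono (union_subset (pr_mono inter_subset_left η) (pr_mono inter_subset_left η))
      (isCompact_pr hK η).measure_ne_top
  have h5 : volume.real (pr η K1 ∩ pr η K2) ≤ vol (sl K c) := by
    have hsub : pr η K1 ∩ pr η K2 ⊆ (fun z => z + c • η) ⁻¹' (sl K c) := by
      rintro z ⟨⟨s, hs, hsc⟩, ⟨t, ht, htc⟩⟩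
      have hsc : s ≤ c := hsc
      have htc : c ≤ t := htc
      change cs c (z + c • η) ∈ K
      rcases (hsc.trans htc).eq_or_lt with hst | hst
      · have : c = s := by linarith
        rw [this]; exact hs
      · have hst' : 0 < t - s := by linarith
        have := hKc hs ht (a := (t - c) / (t - s)) (b := (c - s) / (t - s))
          (div_nonneg (by linarith) hst'.le) (div_nonneg (by linarith) hst'.le)
          (by field_simp; ring)
        rw [comb_cs] at this
        have e1 : (t - c) / (t - s) * s + (c - s) / (t - s) * t = c := by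
          field_simp
          ring
        have e2 : ((t - c) / (t - s)) • (z + s • η) + ((c - s) / (t - s)) • (z + t • η) =
            z + c • η := by
          have e3 : (t - c) / (t - s) + (c - s) / (t - s) = 1 := by field_simp; ring
          calc ((t - c) / (t - s)) • (z + s • η) + ((c - s) / (t - s)) • (z + t • η)
              = ((t - c) / (t - s) + (c - s) / (t - s)) • z +
                ((t - c) / (t - s) * s + (c - s) / (t - s) * t) • η := by module
            _ = z + c • η := by rw [e3, e1, one_smul]
        rwa [e1, e2] at this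
    have e : vol ((fun z => z + c • η) ⁻¹' (sl K c)) = vol (sl K c) := by
      unfold vol
      rw [measureReal_def, measureReal_def, measure_preimage_add_right]
    rw [← e]
    refine measureReal_mono hsub ?_
    rw [measure_preimage_add_right]
    exact (isCompact_sl hK c).measure_ne_top
  unfold vol at *
  linarith

theorem fub1 (m : ℕ) (K : Set (Fin (m + 1) → ℝ)) (hK : IsCompact K) (c : ℝ)
    (h : K ⊆ {x | c ≤ x 0 ∧ x 0 ≤ c + 1}) :
    IntervalIntegrable (fun t => vol (sl K t)) volume c (c + 1) ∧
    vol K = ∫ t in c..(c + 1), vol (sl K t) := by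
  have hm : Measurable (fun t => volume (sl K t)) :=
    measurable_measure_prodMk_left (measurable_cs hK.measurableSet)
  have hsupp : ∀ t, t ∉ Icc c (c + 1) → sl K t = ∅ := by
    intro t ht
    ext x
    simp only [mem_empty_iff_false, iff_false]
    intro hx
    exact ht (h hx)
  have hK' : volume K = ∫⁻ t in Icc c (c + 1), volume (sl K t) := by
    rw [volume_slices hK.measurableSet]
    symm
    apply setLIntegral_eq_of_support_subset
    intro t ht
    by_contra h'
    rw [Function.mem_support] at ht
    rw [hsupp t h'] at ht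
    simp at ht
  have hfin : ∀ t, volume (sl K t) ≠ ⊤ := fun t => (isCompact_sl hK t).measure_ne_top
  have hI : IntegrableOn (fun t => vol (sl K t)) (Icc c (c + 1)) := by
    refine ⟨hm.ennreal_toReal.aestronglyMeasurable, ?_⟩
    rw [hasFiniteIntegral_iff_ofReal (ae_of_all _ fun t => vol_nonneg _)]
    have : ∀ t, ENNReal.ofReal (vol (sl K t)) = volume (sl K t) := fun t =>
      ENNReal.ofReal_toReal (hfin t)
    simp only [this]
    rw [← hK']
    exact hK.measure_lt_top
  have hcc : c ≤ c + 1 := by linarith
  refine ⟨(intervalIntegrable_iff_integrableOn_Icc_of_le hcc).2 hI, ?_⟩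
  rw [intervalIntegral.integral_of_le hcc, ← integral_Icc_eq_integral_Ioc]
  unfold vol
  rw [measureReal_def, hK', ← integral_toReal hm.aemeasurable
    (ae_of_all _ fun t => (hfin t).lt_top)]
  rfl

theorem fub2 (m : ℕ) (K : Set (Fin (m + 2) → ℝ)) (hK : IsCompact K) (c : ℝ) (η : Fin m → ℝ) :
    IntervalIntegrable (fun t => vol (pr η (sl K t))) volume c (c + 1) := by
  let φ : (Fin (m + 2) → ℝ) → (Fin (m + 1) → ℝ) := fun x =>
    cs (x 0) (fun i => x i.succ.succ - x 1 * η i)
  have hφ : Continuous φ := by
    refine continuous_pi fun i => ?_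
    refine Fin.cases ?_ (fun i => ?_) i
    · exact continuous_apply 0
    · simp only [φ, cs_succ]
      fun_prop
  have hL : IsCompact (φ '' K) := hK.image hφ
  have hsl : ∀ t, sl (φ '' K) t = pr η (sl K t) := by
    intro t
    ext z
    constructor
    · rintro ⟨x, hx, hxz⟩
      have h0 : x 0 = t := by
        have := congrFun hxz 0
        simpa [φ] using this
      refine ⟨x 1, ?_⟩
      change cs t (cs (x 1) _) ∈ K
      convert hx
      have h1 : z + x 1 • η = fun i => x i.succ.succ := by
        ext i
        have := congrFun hxz i.succ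
        simp only [φ, cs_succ] at this
        simp [← this]
      rw [h1, ← h0]
      conv_rhs => rw [← cs_eta x]
      congr 1
      exact cs_eta (fun i : Fin (m + 1) => x i.succ)
    · rintro ⟨s, hs⟩
      refine ⟨_, hs, ?_⟩
      simp only [φ]
      ext i
      refine Fin.cases ?_ (fun i => ?_) i
      · simp
      · have h1 : cs t (cs s (z + s • η)) 1 = s := rfl
        rw [h1]
        simp
  have hm : Measurable (fun t => volume (pr η (sl K t))) := by
    simp only [← hsl]
    exact measurable_measure_prodMk_left (measurable_cs hL.measurableSet)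
  -- boundedness
  let ψ : (Fin (m + 2) → ℝ) → (Fin m → ℝ) := fun x => fun i => x i.succ.succ - x 1 * η i
  have hψ : Continuous ψ := by
    refine continuous_pi fun i => ?_
    simp only [ψ]
    fun_prop
  have hM : IsCompact (ψ '' K) := hK.image hψ
  have hsub : ∀ t, pr η (sl K t) ⊆ ψ '' K := by
    rintro t z ⟨s, hs⟩
    refine ⟨_, hs, ?_⟩
    ext i
    simp only [ψ]
    have h1 : cs t (cs s (z + s • η)) 1 = s := rfl
    rw [h1]
    simp
  rw [intervalIntegrable_iff]
  apply Measure.integrableOn_of_bounded (M := vol (ψ '' K))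
  · exact (measure_Ioc_lt_top).ne
  · exact hm.ennreal_toReal.aestronglyMeasurable
  · refine ae_of_all _ fun t => ?_
    rw [Real.norm_of_nonneg (vol_nonneg _)]
    exact vol_mono (hsub t) hM

theorem fub3 (m : ℕ) (K : Set (Fin (m + 1) → ℝ)) (hK : IsCompact K) (η : Fin m → ℝ)
    (h : vol (pr η K) = 0) : vol K = 0 := by
  have h0 : volume (pr η K) = 0 := by
    unfold vol at h
    rw [measureReal_def, ENNReal.toReal_eq_zero_iff] at h
    exact h.resolve_right (isCompact_pr hK η).measure_ne_top
  unfold vol
  rw [measureReal_def, volume_fibres hK.measurableSet η]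
  have : ∫⁻ z, volume {s : ℝ | cs s (z + s • η) ∈ K} = ∫⁻ _ : Fin m → ℝ, 0 := by
    apply lintegral_congr_ae
    have : ∀ᵐ z : Fin m → ℝ, z ∉ pr η K := measure_eq_zero_iff_ae_notMem.1 h0
    filter_upwards [this] with z hz
    have : {s : ℝ | cs s (z + s • η) ∈ K} = ∅ := by
      ext s
      simp only [mem_ofPred_eq, mem_empty_iff_false, iff_false]
      intro hs
      exact hz ⟨s, hs⟩
    rw [this, measure_empty]
  rw [this]
  simp

theorem t_FUB : S_FUB := ⟨fub1, fub2, fub3⟩

end Pool.Agent.W503.EH
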