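import Pool.Agent.W503.EH.Final
import Pool.Agent.W503.EH.Sum
import Pool.Agent.W503.EH.Val
import Pool.Agent.W503.EH.Alg
import Pool.Agent.W597.EH_SEG
import Pool.Agent.W597.EH_COS
import Pool.Agent.W597.EH_BM
import Pool.Agent.W597.EH_BOX
import Pool.Agent.W597.EH_THICK
import Pool.Agent.W374.EHBon
import Pool.Agent.W368.EH_STE

/-!
# Ehrhart's inequality: assembly of the parts
-/

namespace Pool.Agent.W503.EH

open MeasureTheory Set

theorem t_BM' : S_BM := Pool.Agent.W597.EHBM.t_BM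

theorem t_BON' : S_BON := Pool.Agent.W374.EHBON.t_BON t_BM'

theorem t_COS' : S_COS := Pool.Agent.W597.EHCOS.t_COS

theorem t_SEG' : S_SEG := Pool.Agent.W597.EHSEG.t_SEG

theorem t_REC' : S_REC := Pool.Agent.W597.EHBOX.t_REC

theorem t_BOX' : S_BOX := Pool.Agent.W597.EHBOX.t_BOX t_SEG' t_REC'

theorem t_THICK' : S_THICK := Pool.Agent.W597.EHTHICK.t_THICK t_SEG' Pool.Agent.W597.EHTHICK.t_BES

theorem t_INT' : S_INT := t_INT t_BM' t_BON' t_FUB t_COS' t_ALG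

theorem t_SUM' : S_SUM := t_SUM t_INT' t_VAL t_BOX' t_BM'

theorem t_MAIN' : S_MAIN := t_MAIN t_SUM' t_REC'

theorem ehrhart_of (hS : S_STE) {m : ℕ}
    (K : Set (EuclideanSpace ℝ (Fin (m + 1)))) (hK : IsCompact K) (hKc : Convex ℝ K)
    (hne : K.Nonempty) (v w : ℕ → ℝ) (hv : IsIntrinsic K v) (hw : IsIntrinsic (latticeBox K) w) :
    ((K ∩ latticePoints (m + 1)).ncard : ℝ) ≤ v (m + 1) + v m + ∑ i ∈ Finset.range m, w i :=
  final t_MAIN' t_THICK' hS K hK hKc hne v w hv hw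

/-- Ehrhart's inequality. -/
theorem ehrhart {m : ℕ}
    (K : Set (EuclideanSpace ℝ (Fin (m + 1)))) (hK : IsCompact K) (hKc : Convex ℝ K)
    (hne : K.Nonempty) (v w : ℕ → ℝ) (hv : IsIntrinsic K v) (hw : IsIntrinsic (latticeBox K) w) :
    ((K ∩ latticePoints (m + 1)).ncard : ℝ) ≤ v (m + 1) + v m + ∑ i ∈ Finset.range m, w i :=
  ehrhart_of Pool.Agent.W368.EH.t_STE K hK hKc hne v w hv hw

end Pool.Agent.W503.EH
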