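import Mathlib

/-!
# Ehrhart's inequality for the lattice points of a convex body: definitions

`G(K) ≤ V(K) + V_{d-1}(K) + ∑_{i ≤ d-2} V_i(Q)`.
-/

namespace Pool.Agent.W503.EH

open MeasureTheory Set

/-- the vector `(t, x)` -/
def cs {m : ℕ} (t : ℝ) (x : Fin m → ℝ) : Fin (m + 1) → ℝ := Fin.cons t x

@[simp] theorem cs_zero {m : ℕ} (t : ℝ) (x : Fin m → ℝ) : cs t x 0 = t := rfl

@[simp] theorem cs_succ {m : ℕ} (t : ℝ) (x : Fin m → ℝ) (i : Fin m) : cs t x i.succ = x i := rfl

theorem cs_add {m : ℕ} (s t : ℝ) (x y : Fin m → ℝ) : cs s x + cs t y = cs (s + t) (x + y) := by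
  ext i
  refine Fin.cases ?_ (fun i => ?_) i <;> simp

theorem cs_smul {m : ℕ} (r t : ℝ) (x : Fin m → ℝ) : r • cs t x = cs (r * t) (r • x) := by
  ext i
  refine Fin.cases ?_ (fun i => ?_) i <;> simp

theorem cs_neg {m : ℕ} (t : ℝ) (x : Fin m → ℝ) : - cs t x = cs (-t) (-x) := by
  ext i
  refine Fin.cases ?_ (fun i => ?_) i <;> simp

theorem cs_eta {m : ℕ} (x : Fin (m + 1) → ℝ) : cs (x 0) (fun i => x i.succ) = x := by
  ext i
  refine Fin.cases ?_ (fun i => ?_) i <;> simp

theorem continuous_cs {m : ℕ} : Continuous (fun p : ℝ × (Fin m → ℝ) => cs p.1 p.2) := by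
  refine continuous_pi fun i => ?_
  refine Fin.cases ?_ (fun i => ?_) i
  · exact continuous_fst
  · exact (continuous_apply i).comp continuous_snd

/-- volume as a real number -/
noncomputable def vol {m : ℕ} (K : Set (Fin m → ℝ)) : ℝ := volume.real K

/-- slice at height `t` (first coordinate) -/
def sl {m : ℕ} (K : Set (Fin (m + 1) → ℝ)) (t : ℝ) : Set (Fin m → ℝ) := {x | cs t x ∈ K}

/-- projection along the direction `(1, η)` -/
def pr {m : ℕ} (η : Fin m → ℝ) (K : Set (Fin (m + 1) → ℝ)) : Set (Fin m → ℝ) :=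
  {z | ∃ s : ℝ, cs s (z + s • η) ∈ K}

/-- sign vectors -/
def Sgn {m : ℕ} (η : Fin m → ℝ) : Prop := ∀ i, η i = 1 ∨ η i = -1

/-- average over the sign vectors (if `η` runs over all sign vectors of length `m` then `(1, η)`
and `-(1, η)` run over all sign vectors of length `m + 1`) -/
noncomputable def av : (m : ℕ) → ((Fin m → ℝ) → ℝ) → ℝ
  | 0, F => F 0
  | m + 1, F => (av m (fun η => F (cs 1 η)) + av m (fun η => F (-cs 1 η))) / 2

theorem Sgn.cons {m : ℕ} {η : Fin m → ℝ} (h : Sgn η) : Sgn (cs 1 η) := by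
  intro i
  refine Fin.cases ?_ (fun i => ?_) i
  · left; simp
  · simpa using h i

theorem Sgn.neg {m : ℕ} {η : Fin m → ℝ} (h : Sgn η) : Sgn (-η) := by
  intro i
  rcases h i with h | h <;> simp [h]

theorem av_mono {m : ℕ} {F G : (Fin m → ℝ) → ℝ} (h : ∀ η, Sgn η → F η ≤ G η) : av m F ≤ av m G := by
  induction m with
  | zero => exact h 0 (fun i => i.elim0)
  | succ m ih =>
    simp only [av]
    have h1 := ih (F := fun η => F (cs 1 η)) (G := fun η => G (cs 1 η)) fun η hη => h _ hη.cons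
    have h2 := ih (F := fun η => F (-cs 1 η)) (G := fun η => G (-cs 1 η))
      fun η hη => h _ hη.cons.neg
    linarith

theorem av_congr {m : ℕ} {F G : (Fin m → ℝ) → ℝ} (h : ∀ η, Sgn η → F η = G η) :
    av m F = av m G :=
  le_antisymm (av_mono fun η hη => (h η hη).le) (av_mono fun η hη => (h η hη).ge)

theorem av_add {m : ℕ} (F G : (Fin m → ℝ) → ℝ) : av m (fun η => F η + G η) = av m F + av m G := by
  induction m with
  | zero => rfl
  | succ m ih => simp only [av, ih]; ring

theorem av_sub {m : ℕ} (F G : (Fin m → ℝ) → ℝ) : av m (fun η => F η - G η) = av m F - av m G := by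
  induction m with
  | zero => rfl
  | succ m ih => simp only [av, ih]; ring

theorem av_const_mul {m : ℕ} (c : ℝ) (F : (Fin m → ℝ) → ℝ) :
    av m (fun η => c * F η) = c * av m F := by
  induction m with
  | zero => rfl
  | succ m ih => simp only [av, ih]; ring

theorem av_const (m : ℕ) (c : ℝ) : av m (fun _ => c) = c := by
  induction m with
  | zero => rfl
  | succ m ih => simp only [av, ih]; ring

theorem av_nonneg {m : ℕ} {F : (Fin m → ℝ) → ℝ} (h : ∀ η, Sgn η → 0 ≤ F η) : 0 ≤ av m F := by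
  rw [← av_const m 0]
  exact av_mono h

theorem av_sum {m : ℕ} {ι : Type*} (s : Finset ι) (F : ι → (Fin m → ℝ) → ℝ) :
    av m (fun η => ∑ i ∈ s, F i η) = ∑ i ∈ s, av m (F i) := by
  induction m with
  | zero => rfl
  | succ m ih =>
    simp only [av, ih]
    rw [← Finset.sum_add_distrib, Finset.sum_div]

/-- the functional which replaces (and is at most) `V_{d-1}`, `d = m + 1`: the average over the
sign vectors `η` of the volume of the projection along `(1, η)` -/
noncomputable def TT {m : ℕ} (K : Set (Fin (m + 1) → ℝ)) : ℝ := av m (fun η => vol (pr η K))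

/-- the elementary symmetric polynomial of degree `m - r` in `m` variables -/
noncomputable def el {m : ℕ} (r : ℕ) (n : Fin m → ℝ) : ℝ :=
  ∑ s ∈ (Finset.univ : Finset (Finset (Fin m))).filter (fun s => s.card + r = m), ∏ j ∈ s, n j

/-- the sum of the elementary symmetric polynomials of degree at most `m - 2` in `m` variables -/
noncomputable def lo {m : ℕ} (n : Fin m → ℝ) : ℝ :=
  ∑ s ∈ (Finset.univ : Finset (Finset (Fin m))).filter (fun s => s.card + 2 ≤ m), ∏ j ∈ s, n j

/-- lattice box with corner `a` and side lengths `n` -/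
def bx {m : ℕ} (a : Fin m → ℤ) (n : Fin m → ℕ) : Set (Fin m → ℝ) :=
  {x | ∀ i, (a i : ℝ) ≤ x i ∧ x i ≤ a i + n i}

/-- the points with integer coordinates -/
def lat (m : ℕ) : Set (Fin m → ℝ) := {x | ∀ i, ∃ z : ℤ, x i = z}

end Pool.Agent.W503.EH
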