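import Pool.Agent.W503.EH.Main

/-!
# Assembly: the inequality with intrinsic volumes
-/

namespace Pool.Agent.W503.EH

open MeasureTheory Set Filter
open scoped Pointwise Topology

/-- The numbers `v 0, ..., v d` are the intrinsic volumes of `K`: Steiner's formula
`V(K + ρ B) = ∑ κ_{d-i} ρ^{d-i} v_i` for all `ρ ≥ 0`. -/
def IsIntrinsic {d : ℕ} (K : Set (EuclideanSpace ℝ (Fin d))) (v : ℕ → ℝ) : Prop :=
  ∀ ρ : ℝ, 0 ≤ ρ → volume.real (K + Metric.closedBall (0 : EuclideanSpace ℝ (Fin d)) ρ) =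
    ∑ i ∈ Finset.range (d + 1),
      volume.real (Metric.closedBall (0 : EuclideanSpace ℝ (Fin (d - i))) 1) * ρ ^ (d - i) * v i

/-- The smallest lattice box containing `K`. -/
def latticeBox {d : ℕ} (K : Set (EuclideanSpace ℝ (Fin d))) : Set (EuclideanSpace ℝ (Fin d)) :=
  {x | ∀ j, (⌊sInf ((fun y : EuclideanSpace ℝ (Fin d) => y j) '' K)⌋ : ℝ) ≤ x j ∧
    x j ≤ ⌈sSup ((fun y : EuclideanSpace ℝ (Fin d) => y j) '' K)⌉}

/-- the points with integer coordinates -/
def latticePoints (d : ℕ) : Set (EuclideanSpace ℝ (Fin d)) := {x | ∀ j, ∃ z : ℤ, x j = z}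

section aux

theorem ka_pos (j : ℕ) : 0 < ka j := by
  unfold ka
  rw [measureReal_def]
  exact ENNReal.toReal_pos (Metric.measure_closedBall_pos _ _ one_pos).ne'
    (isCompact_closedBall _ _).measure_ne_top

theorem ka_zero : ka 0 = 1 := by
  unfold ka
  have h1 : (Metric.closedBall (0 : EuclideanSpace ℝ (Fin 0)) 1) = univ := by
    ext x
    simp [Subsingleton.elim x 0]
  have h2 := (PiLp.volume_preserving_toLp (Fin 0)).measure_preimage
    (s := (univ : Set (EuclideanSpace ℝ (Fin 0)))) MeasurableSet.univ.nullMeasurableSet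
  rw [h1, measureReal_def, ← h2, preimage_univ, volume_pi, Measure.pi_of_empty]
  simp

theorem ka_one : ka 1 = 2 := by
  unfold ka
  rw [measureReal_def, EuclideanSpace.volume_closedBall]
  have hG : Real.Gamma (3 / 2) = Real.sqrt Real.pi / 2 := by
    have := Real.Gamma_add_one (s := 1 / 2) (by norm_num)
    rw [Real.Gamma_one_half_eq] at this
    rw [show (3 / 2 : ℝ) = 1 / 2 + 1 by norm_num, this]
    ring
  have hpi : 0 < Real.sqrt Real.pi := Real.sqrt_pos.2 Real.pi_pos
  have h2 : Real.sqrt Real.pi / (Real.sqrt Real.pi / 2) = 2 := by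
    field_simp
  norm_num
  rw [hG, h2, ENNReal.toReal_ofReal (by norm_num)]

/-- two polynomials in `ρ` which agree for `ρ ≥ 0` have the same coefficients -/
theorem coeff_eq (N : ℕ) (x y : ℕ → ℝ)
    (h : ∀ ρ : ℝ, 0 ≤ ρ → ∑ r ∈ Finset.range N, x r * ρ ^ r = ∑ r ∈ Finset.range N, y r * ρ ^ r) :
    ∀ r < N, x r = y r := by
  let P : Polynomial ℝ := ∑ r ∈ Finset.range N, Polynomial.C (x r) * Polynomial.X ^ r
  let Q : Polynomial ℝ := ∑ r ∈ Finset.range N, Polynomial.C (y r) * Polynomial.X ^ r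
  have hPQ : P = Q := by
    apply Polynomial.eq_of_infinite_eval_eq
    refine Set.Infinite.mono (s := Ici 0) ?_ (Ici_infinite 0)
    intro ρ hρ
    have := h ρ hρ
    simp only [mem_ofPred_eq, P, Q, Polynomial.eval_finsetSum, Polynomial.eval_mul,
      Polynomial.eval_C, Polynomial.eval_pow, Polynomial.eval_X]
    exact this
  intro r hr
  have h1 : ∀ z : ℕ → ℝ, (∑ r ∈ Finset.range N, Polynomial.C (z r) * Polynomial.X ^ r).coeff r
      = z r := by
    intro z
    rw [Polynomial.finsetSum_coeff]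
    simp only [Polynomial.coeff_C_mul, Polynomial.coeff_X_pow]
    simp [hr]
  rw [← h1 x, ← h1 y]
  exact congrArg (fun R => Polynomial.coeff R r) hPQ

/-- the same set in `Fin d → ℝ` -/
def fl {d : ℕ} (K : Set (EuclideanSpace ℝ (Fin d))) : Set (Fin d → ℝ) := WithLp.toLp 2 ⁻¹' K

theorem vol_fl {d : ℕ} {K : Set (EuclideanSpace ℝ (Fin d))} (hK : IsCompact K) :
    vol (fl K) = volume.real K := by
  unfold vol fl
  rw [measureReal_def, measureReal_def,
    (PiLp.volume_preserving_toLp (Fin d)).measure_preimage hK.measurableSet.nullMeasurableSet]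

theorem isCompact_fl {d : ℕ} {K : Set (EuclideanSpace ℝ (Fin d))} (hK : IsCompact K) :
    IsCompact (fl K) := by
  have : fl K = WithLp.ofLp '' K := by
    ext x
    constructor
    · intro hx
      exact ⟨WithLp.toLp 2 x, hx, rfl⟩
    · rintro ⟨y, hy, rfl⟩
      exact hy
  rw [this]
  exact hK.image (PiLp.continuous_ofLp 2 _)

theorem convex_fl {d : ℕ} {K : Set (EuclideanSpace ℝ (Fin d))} (hK : Convex ℝ K) :
    Convex ℝ (fl K) := by
  intro x hx y hy a b ha hb hab
  have := hK hx hy ha hb hab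
  exact this

theorem mem_fl {d : ℕ} {K : Set (EuclideanSpace ℝ (Fin d))} {x : EuclideanSpace ℝ (Fin d)}
    (hx : x ∈ K) : WithLp.ofLp x ∈ fl K := hx

/-- Steiner's formula, reflected -/
theorem intrinsic_iff {d : ℕ} {K : Set (EuclideanSpace ℝ (Fin d))} {v : ℕ → ℝ}
    (hK : IsCompact K) (h : IsIntrinsic K v) (ρ : ℝ) (hρ : 0 ≤ ρ) :
    volume.real (Metric.cthickening ρ K) =
      ∑ r ∈ Finset.range (d + 1), (ka r * v (d - r)) * ρ ^ r := by
  rw [← hK.add_closedBall_zero hρ, h ρ hρ,
    ← Finset.sum_range_reflect (fun r => (ka r * v (d - r)) * ρ ^ r)]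
  refine Finset.sum_congr rfl fun i hi => ?_
  rw [Finset.mem_range] at hi
  have h1 : d + 1 - 1 - i = d - i := by omega
  have h2 : d - (d - i) = i := by omega
  rw [h1, h2]
  unfold ka
  ring

theorem intrinsic_box (hS : S_STE) {d : ℕ} {a : Fin d → ℤ} {n : Fin d → ℕ} {w : ℕ → ℝ}
    (hw : IsIntrinsic (ebx a n) w) (hc : IsCompact (ebx a n)) :
    ∀ r < d + 1, w (d - r) = el r (fun i => (n i : ℝ)) := by
  intro r hr
  have := coeff_eq (d + 1) (fun r => ka r * w (d - r)) (fun r => ka r * el r (fun i => (n i : ℝ)))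
    (by
      intro ρ hρ
      rw [← intrinsic_iff hc hw ρ hρ, hS d a n ρ hρ]
      exact Finset.sum_congr rfl fun r _ => by ring) r hr
  exact mul_left_cancel₀ (ka_pos r).ne' this

/-- `TT` is at most the intrinsic volume of degree `d - 1` -/
theorem TT_le (hT : S_THICK) {m : ℕ} {K : Set (EuclideanSpace ℝ (Fin (m + 1)))} {v : ℕ → ℝ}
    (hK : IsCompact K) (hKc : Convex ℝ K) (hne : K.Nonempty) (h : IsIntrinsic K v) :
    vol (fl K) = v (m + 1) ∧ TT (fl K) ≤ v m := by
  have h0 : vol (fl K) = v (m + 1) := by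
    have := intrinsic_iff hK h 0 le_rfl
    rw [Metric.cthickening_zero, hK.isClosed.closure_eq, Finset.sum_range_succ'] at this
    simp only [pow_succ, mul_zero, Finset.sum_const_zero, zero_add, pow_zero, mul_one,
      Nat.sub_zero, ka_zero, one_mul] at this
    rw [vol_fl hK, this]
  refine ⟨h0, ?_⟩
  -- the remainder
  let R : ℝ → ℝ := fun ρ => ∑ r ∈ Finset.range m, (ka (r + 2) * v (m + 1 - (r + 2))) * ρ ^ (r + 1)
  have hR : Tendsto R (𝓝[>] 0) (𝓝 0) := by
    have hc : Continuous R := by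
      apply continuous_finsetSum
      intro r _
      fun_prop
    have := hc.tendsto 0
    have h00 : R 0 = 0 := by
      simp only [R]
      apply Finset.sum_eq_zero
      intro r _
      simp
    rw [h00] at this
    exact this.mono_left nhdsWithin_le_nhds
  have key : ∀ ρ : ℝ, 0 < ρ → 2 * TT (fl K) ≤ 2 * v m + R ρ := by
    intro ρ hρ
    have hD : IsCompact (Metric.cthickening ρ K) := hK.cthickening
    have h1 := hT m (fl K) (fl (Metric.cthickening ρ K)) (isCompact_fl hK) (convex_fl hKc)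
      (by obtain ⟨x, hx⟩ := hne; exact ⟨WithLp.ofLp x, hx⟩) (isCompact_fl hD) ρ hρ.le (by
        intro x hx z hz
        change WithLp.toLp 2 (x + z) ∈ Metric.cthickening ρ K
        rw [← hK.add_closedBall_zero hρ.le]
        refine ⟨WithLp.toLp 2 x, hx, WithLp.toLp 2 z, ?_, rfl⟩
        rw [mem_closedBall_zero_iff, EuclideanSpace.norm_eq]
        apply Real.sqrt_le_iff.2
        refine ⟨hρ.le, ?_⟩
        simpa using hz)
    rw [vol_fl hD, intrinsic_iff hK h ρ hρ.le, Finset.sum_range_succ', Finset.sum_range_succ'] at h1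
    simp only [pow_zero, mul_one, Nat.sub_zero, ka_zero, one_mul, zero_add, ka_one, pow_one,
      Nat.add_sub_cancel] at h1
    have e : ∑ r ∈ Finset.range m, ka (r + 1 + 1) * v (m + 1 - (r + 1 + 1)) * ρ ^ (r + 1 + 1) =
        ρ * R ρ := by
      simp only [R]
      rw [Finset.mul_sum]
      exact Finset.sum_congr rfl fun r _ => by ring
    rw [e, h0] at h1
    have : ρ * (2 * TT (fl K)) ≤ ρ * (2 * v m + R ρ) := by linarith
    exact le_of_mul_le_mul_left this hρ
  have hlim : Tendsto (fun ρ => 2 * v m + R ρ) (𝓝[>] 0) (𝓝 (2 * v m + 0)) := hR.const_add _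
  have := ge_of_tendsto hlim (eventually_of_mem self_mem_nhdsWithin fun ρ hρ => key ρ hρ)
  linarith

end aux

/-- Ehrhart's inequality, from the parts. -/
theorem final (hM : S_MAIN) (hT : S_THICK) (hS : S_STE) {m : ℕ}
    (K : Set (EuclideanSpace ℝ (Fin (m + 1)))) (hK : IsCompact K) (hKc : Convex ℝ K)
    (hne : K.Nonempty) (v w : ℕ → ℝ) (hv : IsIntrinsic K v) (hw : IsIntrinsic (latticeBox K) w) :
    ((K ∩ latticePoints (m + 1)).ncard : ℝ) ≤ v (m + 1) + v m + ∑ i ∈ Finset.range m, w i := by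
  -- the box
  let lo' : Fin (m + 1) → ℝ := fun j => sInf ((fun y : EuclideanSpace ℝ (Fin (m + 1)) => y j) '' K)
  let hi' : Fin (m + 1) → ℝ := fun j => sSup ((fun y : EuclideanSpace ℝ (Fin (m + 1)) => y j) '' K)
  have hcj : ∀ j, IsCompact ((fun y : EuclideanSpace ℝ (Fin (m + 1)) => y j) '' K) := fun j =>
    hK.image (by fun_prop)
  have hlo : ∀ x ∈ K, ∀ j, lo' j ≤ x j := fun x hx j =>
    csInf_le (hcj j).bddBelow ⟨x, hx, rfl⟩
  have hhi : ∀ x ∈ K, ∀ j, x j ≤ hi' j := fun x hx j =>
    le_csSup (hcj j).bddAbove ⟨x, hx, rfl⟩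
  obtain ⟨x0, hx0⟩ := hne
  have hlh : ∀ j, lo' j ≤ hi' j := fun j => (hlo x0 hx0 j).trans (hhi x0 hx0 j)
  let a : Fin (m + 1) → ℤ := fun j => ⌊lo' j⌋
  let n : Fin (m + 1) → ℕ := fun j => (⌈hi' j⌉ - ⌊lo' j⌋).toNat
  have han : ∀ j, (a j : ℝ) + (n j : ℝ) = ⌈hi' j⌉ := by
    intro j
    have h1 : ⌊lo' j⌋ ≤ ⌈hi' j⌉ := by
      have h2 := Int.floor_le (lo' j)
      have h3 := Int.le_ceil (hi' j)
      exact_mod_cast h2.trans ((hlh j).trans h3)
    have h2 : a j + (n j : ℤ) = ⌈hi' j⌉ := by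
      simp only [a, n]
      omega
    exact_mod_cast h2
  have hbox : latticeBox K = ebx a n := by
    ext x
    simp only [latticeBox, ebx, mem_ofPred_eq]
    refine forall_congr' fun j => ?_
    rw [han j]
  rw [hbox] at hw
  have hebxc : IsCompact (ebx a n) := by
    have h1 : fl (ebx a n) = Icc (fun i => (a i : ℝ)) (fun i => (a i : ℝ) + n i) := by
      ext x
      simp only [fl, ebx, mem_preimage, mem_ofPred_eq, mem_Icc, Pi.le_def]
      constructor
      · intro h
        exact ⟨fun i => (h i).1, fun i => (h i).2⟩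
      · intro h i
        exact ⟨h.1 i, h.2 i⟩
    have h2 : ebx a n = WithLp.toLp 2 '' (fl (ebx a n)) := by
      ext x
      constructor
      · intro hx
        exact ⟨WithLp.ofLp x, hx, rfl⟩
      · rintro ⟨y, hy, rfl⟩
        exact hy
    rw [h2, h1]
    exact isCompact_Icc.image (PiLp.continuous_toLp 2 _)
  have hwe := intrinsic_box hS hw hebxc
  obtain ⟨hV, hTT⟩ := TT_le hT hK hKc ⟨x0, hx0⟩ hv
  have hsub : fl K ⊆ bx a n := by
    intro x hx i
    have h1 := hlo _ hx i
    have h2 := hhi _ hx i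
    constructor
    · exact (Int.floor_le _).trans h1
    · rw [han i]
      exact h2.trans (Int.le_ceil _)
  have key := hM m (fl K) (isCompact_fl hK) (convex_fl hKc) a n hsub
  have hcard : (K ∩ latticePoints (m + 1)).ncard = (fl K ∩ lat (m + 1)).ncard := by
    have : fl K ∩ lat (m + 1) = WithLp.ofLp '' (K ∩ latticePoints (m + 1)) := by
      ext x
      constructor
      · rintro ⟨hx, hxl⟩
        exact ⟨WithLp.toLp 2 x, ⟨hx, hxl⟩, rfl⟩
      · rintro ⟨y, ⟨hy, hyl⟩, rfl⟩
        exact ⟨hy, hyl⟩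
    rw [this, ncard_image_of_injective _ (WithLp.ofLp_injective 2)]
  have hlosum : lo (fun i => (n i : ℝ)) = ∑ i ∈ Finset.range m, w i := by
    have h1 : ∀ i ∈ Finset.range m, w i = ∑ s ∈ (Finset.univ : Finset (Finset (Fin (m + 1)))).filter
        (fun s => s.card = i), ∏ j ∈ s, (n j : ℝ) := by
      intro i hi
      rw [Finset.mem_range] at hi
      have h2 := hwe (m + 1 - i) (by omega)
      have h3 : m + 1 - (m + 1 - i) = i := by omega
      rw [h3] at h2
      rw [h2]
      unfold el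
      refine Finset.sum_congr ?_ fun _ _ => rfl
      ext s
      simp only [Finset.mem_filter, Finset.mem_univ, true_and]
      omega
    rw [Finset.sum_congr rfl h1]
    unfold lo
    rw [← Finset.sum_biUnion]
    · refine Finset.sum_congr ?_ fun _ _ => rfl
      ext s
      simp only [Finset.mem_filter, Finset.mem_univ, true_and, Finset.mem_biUnion,
        Finset.mem_range, exists_eq_right']
      omega
    · intro i _ j _ hij
      simp only [Function.onFun]
      rw [Finset.disjoint_left]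
      intro s hs hs'
      simp only [Finset.mem_filter, Finset.mem_univ, true_and] at hs hs'
      exact hij (hs.symm.trans hs')
  rw [hcard, ← hlosum, ← hV]
  linarith

end Pool.Agent.W503.EH
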