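import Pool.Agent.W503.EH.Basic
import Pool.Agent.W503.EH.Stmts

/-!
# EH-INT: the inequality for a set between two hyperplanes at distance one
-/

namespace Pool.Agent.W503.EH

open MeasureTheory Set

section
variable {m : ℕ}

/-- each projection contains a translate of each slice -/
theorem vol_sl_le_pr {K : Set (Fin (m + 1) → ℝ)} (hK : IsCompact K) (t : ℝ) (η : Fin m → ℝ) :
    vol (sl K t) ≤ vol (pr η K) := by
  have h1 : (fun z => z + t • η) ⁻¹' (sl K t) ⊆ pr η K := fun z hz => ⟨t, hz⟩
  have h2 : vol ((fun z => z + t • η) ⁻¹' (sl K t)) = vol (sl K t) := by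
    unfold vol
    rw [measureReal_def, measureReal_def, measure_preimage_add_right]
  rw [← h2]
  exact vol_mono h1 (isCompact_pr hK η)

theorem vol_sl_le_TT {K : Set (Fin (m + 1) → ℝ)} (hK : IsCompact K) (t : ℝ) :
    vol (sl K t) ≤ TT K := by
  unfold TT
  rw [← av_const m (vol (sl K t))]
  exact av_mono fun η _ => vol_sl_le_pr hK t η

theorem min_le_rpow {x y t : ℝ} (hx : 0 ≤ x) (hy : 0 ≤ y) (ht0 : 0 < t) (ht1 : t < 1) :
    min x y ≤ x ^ (1 - t) * y ^ t := by
  have hm : 0 ≤ min x y := le_min hx hy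
  rcases hm.eq_or_lt with h | h
  · rw [← h]; positivity
  calc min x y = (min x y) ^ (1 - t) * (min x y) ^ t := by
        rw [← Real.rpow_add h, sub_add_cancel, Real.rpow_one]
    _ ≤ x ^ (1 - t) * y ^ t :=
        mul_le_mul (Real.rpow_le_rpow hm (min_le_left _ _) (by linarith))
          (Real.rpow_le_rpow hm (min_le_right _ _) ht0.le) (Real.rpow_nonneg hm _)
          (Real.rpow_nonneg hx _)

/-- a half of the interval inequality: `A` is the slice at `c`, `B` the slice at `c + 1`, or
conversely; `K'` is the family of slices -/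
theorem int_aux (h1 : S_BM) (h2 : S_BON) (h5 : S_ALG) (A B : Set (Fin (m + 1) → ℝ))
    (hA : IsCompact A) (hB : IsCompact B) (hAc : Convex ℝ A) (hBc : Convex ℝ B)
    (hAn : A.Nonempty) (hBn : B.Nonempty)
    (C : ℝ → Set (Fin (m + 1) → ℝ)) (hC : ∀ t, IsCompact (C t))
    (hABC : ∀ t, 0 < t → t < 1 → ∀ x ∈ A, ∀ y ∈ B, (1 - t) • x + t • y ∈ C t)
    (F T : ℝ) (G : (Fin m → ℝ) → ℝ)
    (hFi : IntervalIntegrable (fun t => vol (C t)) volume 0 1)
    (hF : F = ∫ t in (0:ℝ)..1, vol (C t))
    (hGi : ∀ η, IntervalIntegrable (fun t => vol (pr η (C t))) volume 0 1)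
    (hG : ∀ η, G η = ∫ t in (0:ℝ)..1, vol (pr η (C t)))
    (hzA : ∀ η : Fin m → ℝ, vol (pr η A) = 0 → vol A = 0)
    (hzB : ∀ η : Fin m → ℝ, vol (pr η B) = 0 → vol B = 0)
    (hle : vol A ≤ vol B) (hT1 : vol B ≤ T) (hT2 : (vol A + vol B) / 2 + av m G ≤ T) :
    vol A + vol B + av m (fun η => min (vol (pr η A)) (vol (pr η B))) ≤ F + T := by
  have hBM : ∀ (η : Fin m → ℝ) (t : ℝ), 0 < t → t < 1 →
      vol (pr η A) ^ (1 - t) * vol (pr η B) ^ t ≤ vol (pr η (C t)) := by
    intro η t ht0 ht1
    exact h1 m (pr η A) (pr η B) (pr η (C t)) (isCompact_pr hA η) (isCompact_pr hB η)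
      (isCompact_pr (hC t) η) (pr_nonempty hAn η) (pr_nonempty hBn η) t ht0 ht1
      (fun x hx y hy => pr_comb (hABC t ht0 ht1) η hx hy)
  have hmono : ∀ (f g : ℝ → ℝ), IntervalIntegrable f volume 0 1 → IntervalIntegrable g volume 0 1 →
      (∀ t, 0 < t → t < 1 → f t ≤ g t) → ∫ t in (0:ℝ)..1, f t ≤ ∫ t in (0:ℝ)..1, g t := by
    intro f g hf hg hfg
    apply intervalIntegral.integral_mono_on_of_le_Ioo (by norm_num) hf hg
    intro t ht
    exact hfg t ht.1 ht.2
  refine h5 m (vol A) (vol B) F T (fun η => vol (pr η A)) (fun η => vol (pr η B)) G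
    (vol_nonneg _) hle (fun η _ => vol_nonneg _) (fun η _ => vol_nonneg _) ?_ ?_ ?_
    (fun η _ => hzA η) (fun η _ => hzB η) ?_ hT1 hT2
  · intro η _
    rw [hG η]
    have : ∫ t in (0:ℝ)..1, min (vol (pr η A)) (vol (pr η B)) ≤
        ∫ t in (0:ℝ)..1, vol (pr η (C t)) := by
      apply hmono _ _ (by simp) (hGi η)
      intro t ht0 ht1
      exact (min_le_rpow (vol_nonneg _) (vol_nonneg _) ht0 ht1).trans (hBM η t ht0 ht1)
    simpa using this
  · intro η _ hp0 hp1
    rw [hF]
    have hcont : Continuous (fun t : ℝ => t * (vol (pr η A) / vol (pr η B)) ^ (1 - t)) := by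
      have : 0 < vol (pr η A) / vol (pr η B) := div_pos hp0 hp1
      refine continuous_id.mul ?_
      exact Continuous.rpow continuous_const (by fun_prop) (fun x => Or.inl this.ne')
    have hc2 : Continuous (fun t : ℝ => (vol B - vol A) *
        (t * (vol (pr η A) / vol (pr η B)) ^ (1 - t))) := continuous_const.mul hcont
    have hc3 : Continuous (fun t : ℝ => vol A + (vol B - vol A) *
        (t * (vol (pr η A) / vol (pr η B)) ^ (1 - t))) := continuous_const.add hc2
    have : ∫ t in (0:ℝ)..1, (vol A + (vol B - vol A) *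
        (t * (vol (pr η A) / vol (pr η B)) ^ (1 - t))) ≤ ∫ t in (0:ℝ)..1, vol (C t) := by
      apply hmono _ _ (hc3.intervalIntegrable _ _) hFi
      intro t ht0 ht1
      exact h2 m A B (C t) hA hB (hC t) hAc hBc hAn hBn t ht0 ht1 (hABC t ht0 ht1) η hp0 hp1 hle
    rw [intervalIntegral.integral_add (f := fun _ => vol A) (g := fun t : ℝ => (vol B - vol A) *
        (t * (vol (pr η A) / vol (pr η B)) ^ (1 - t))) (by simp) (hc2.intervalIntegrable _ _),
      intervalIntegral.integral_const_mul] at this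
    simpa using this
  · intro η _ hp0 hp1
    rw [hG η]
    have hcont : Continuous (fun t : ℝ => (vol (pr η B) / vol (pr η A)) ^ t) := by
      have : 0 < vol (pr η B) / vol (pr η A) := div_pos hp1 hp0
      exact Continuous.rpow continuous_const continuous_id (fun x => Or.inl this.ne')
    have hc2 : Continuous (fun t : ℝ => vol (pr η A) * (vol (pr η B) / vol (pr η A)) ^ t) :=
      continuous_const.mul hcont
    rw [← intervalIntegral.integral_const_mul]
    apply hmono (fun t : ℝ => vol (pr η A) * (vol (pr η B) / vol (pr η A)) ^ t) _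
      (hc2.intervalIntegrable _ _) (hGi η)
    intro t ht0 ht1
    refine le_trans (le_of_eq ?_) (hBM η t ht0 ht1)
    rw [Real.div_rpow (vol_nonneg _) (vol_nonneg _), Real.rpow_sub hp0, Real.rpow_one]
    ring
  · rw [hF]
    apply intervalIntegral.integral_nonneg (by norm_num)
    intro t _
    exact vol_nonneg _

end

theorem t_INT (h1 : S_BM) (h2 : S_BON) (h3 : S_FUB) (h4 : S_COS) (h5 : S_ALG) : S_INT := by
  intro m K hK hKc c hKs hAn hBn
  obtain ⟨h31, h32, h33⟩ := h3
  have hA := isCompact_sl hK c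
  have hB := isCompact_sl hK (c + 1)
  obtain ⟨hi, hv⟩ := h31 (m + 1) K hK c hKs
  -- translated integrals
  have hv' : vol K = ∫ t in (0:ℝ)..1, vol (sl K (c + t)) := by
    rw [hv, intervalIntegral.integral_comp_add_left (fun t => vol (sl K t)) c]
    simp
  have hi' : IntervalIntegrable (fun t => vol (sl K (c + t))) volume 0 1 := by
    have := hi.comp_add_left c
    simpa using this
  have hT2 : (vol (sl K c) + vol (sl K (c + 1))) / 2 +
      av m (fun η => ∫ t in c..(c + 1), vol (pr η (sl K t))) ≤ TT K := by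
    have hc : TT K = (av m (fun η => vol (pr (cs 1 η) K)) +
        av m (fun η => vol (pr (-cs 1 η) K))) / 2 := rfl
    rw [hc, ← av_add]
    have : av m (fun η : Fin m → ℝ => (vol (sl K c) + vol (sl K (c + 1))) +
        2 * (∫ t in c..(c + 1), vol (pr η (sl K t)))) ≤
        av m (fun η => vol (pr (cs 1 η) K) + vol (pr (-cs 1 η) K)) :=
      av_mono fun η _ => h4 m K hK hKc c hKs η
    rw [av_add (fun _ => vol (sl K c) + vol (sl K (c + 1))), av_const, av_const_mul] at this
    linarith
  rcases le_total (vol (sl K c)) (vol (sl K (c + 1))) with hle | hle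
  · refine int_aux h1 h2 h5 (sl K c) (sl K (c + 1)) hA hB (convex_sl hKc _) (convex_sl hKc _)
      hAn hBn (fun t => sl K (c + t)) (fun t => isCompact_sl hK _) ?_ (vol K) (TT K)
      (fun η => ∫ t in c..(c + 1), vol (pr η (sl K t))) hi' hv' ?_ ?_ (fun η => h33 m _ hA η)
      (fun η => h33 m _ hB η) hle (vol_sl_le_TT hK _) hT2
    · intro t ht0 ht1 x hx y hy
      have := sl_comb hKc (by linarith : 0 ≤ 1 - t) ht0.le (by ring) hx hy
      have e : (1 - t) * c + t * (c + 1) = c + t := by ring
      rwa [e] at this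
    · intro η
      have := (h32 m K hK c η).comp_add_left c
      simpa using this
    · intro η
      rw [intervalIntegral.integral_comp_add_left (fun t => vol (pr η (sl K t))) c]
      simp
  · have key := int_aux h1 h2 h5 (sl K (c + 1)) (sl K c) hB hA (convex_sl hKc _) (convex_sl hKc _)
      hBn hAn (fun t => sl K (c + 1 - t)) (fun t => isCompact_sl hK _) ?_ (vol K) (TT K)
      (fun η => ∫ t in c..(c + 1), vol (pr η (sl K t))) ?_ ?_ ?_ ?_ (fun η => h33 m _ hB η)
      (fun η => h33 m _ hA η) hle (vol_sl_le_TT hK _) ?_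
    · have e : av m (fun η => min (vol (pr η (sl K (c + 1)))) (vol (pr η (sl K c)))) =
          av m (fun η => min (vol (pr η (sl K c))) (vol (pr η (sl K (c + 1))))) :=
        av_congr fun η _ => min_comm _ _
      rw [e] at key
      linarith
    · intro t ht0 ht1 x hx y hy
      have := sl_comb hKc (by linarith : 0 ≤ 1 - t) ht0.le (by ring) hx hy
      have e : (1 - t) * (c + 1) + t * c = c + 1 - t := by ring
      rwa [e] at this
    · have := hi.comp_sub_left (c + 1)
      simpa using this.symm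
    · rw [hv, intervalIntegral.integral_comp_sub_left (fun t => vol (sl K t)) (c + 1)]
      simp
    · intro η
      have := (h32 m K hK c η).comp_sub_left (c + 1)
      simpa using this.symm
    · intro η
      rw [intervalIntegral.integral_comp_sub_left (fun t => vol (pr η (sl K t))) (c + 1)]
      simp
    · rw [add_comm (vol (sl K (c + 1)))]
      exact hT2

end Pool.Agent.W503.EH
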