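import Pool.Agent.W503.EH.Basic
import Pool.Agent.W503.EH.Stmts

/-!
# Induction on the dimension
-/

namespace Pool.Agent.W503.EH

open MeasureTheory Set

theorem base_case (K : Set (Fin 1 → ℝ)) (hK : IsCompact K) (hKc : Convex ℝ K)
    (a : Fin 1 → ℤ) (n : Fin 1 → ℕ) :
    ((K ∩ lat 1).ncard : ℝ) ≤ vol K + TT K + lo (fun i => (n i : ℝ)) := by
  have hlo : lo (fun i : Fin 1 => (n i : ℝ)) = 0 := by
    unfold lo
    rw [Finset.filter_false_of_mem, Finset.sum_empty]
    intro s _
    omega
  rw [hlo, add_zero]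
  rcases K.eq_empty_or_nonempty with hne | hne
  · subst hne
    simp only [empty_inter, ncard_empty, Nat.cast_zero]
    exact add_nonneg (vol_nonneg _) (TT_nonneg _)
  have hTT : TT K = 1 := by
    unfold TT
    exact vol_eq_one_of_nonempty (pr_nonempty hne _)
  rw [hTT]
  -- the interval
  let I : Set ℝ := (fun x : Fin 1 → ℝ => x 0) '' K
  have hIc : IsCompact I := hK.image (by fun_prop)
  have hIconv : Convex ℝ I := hKc.linear_image (LinearMap.proj 0)
  have hIne : I.Nonempty := hne.image _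
  obtain ⟨α, hα⟩ := hIc.exists_isLeast hIne
  obtain ⟨β, hβ⟩ := hIc.exists_isGreatest hIne
  have hIicc : I = Icc α β := by
    apply Subset.antisymm
    · intro x hx
      exact ⟨hα.2 hx, hβ.2 hx⟩
    · exact hIconv.ordConnected.out hα.1 hβ.1
  have hαβ : α ≤ β := hα.2 hβ.1
  have hvol : vol K = β - α := by
    have h1 : volume K = volume (Icc α β) := by
      rw [volume_slices hK.measurableSet, ← hIicc, ← lintegral_indicator_one
        (by rw [hIicc]; exact measurableSet_Icc)]
      refine lintegral_congr fun t => ?_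
      by_cases ht : t ∈ I
      · rw [indicator_of_mem ht]
        obtain ⟨x, hx, hxt⟩ := ht
        have hne' : (sl K t).Nonempty := by
          refine ⟨fun i => x i.succ, ?_⟩
          change cs t _ ∈ K
          have hxt : x 0 = t := hxt
          rw [← hxt, cs_eta]
          exact hx
        have := vol_eq_one_of_nonempty hne'
        unfold vol at this
        rw [measureReal_def] at this
        simp only [Pi.one_apply]
        exact (ENNReal.toReal_eq_one_iff _).1 this
      · rw [indicator_of_notMem ht]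
        have : sl K t = ∅ := by
          ext x
          simp only [mem_empty_iff_false, iff_false]
          intro hx
          exact ht ⟨cs t x, hx, rfl⟩
        rw [this, measure_empty]
    rw [vol, measureReal_def, h1, Real.volume_Icc, ENNReal.toReal_ofReal (by linarith)]
  rw [hvol]
  -- counting
  have hsub : K ∩ lat 1 ⊆ (fun z : ℤ => (fun _ : Fin 1 => (z : ℝ))) ''
      (Finset.Icc ⌈α⌉ ⌊β⌋ : Finset ℤ) := by
    rintro x ⟨hx, hxl⟩
    obtain ⟨z, hz⟩ := hxl 0
    have hxI : x 0 ∈ Icc α β := by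
      rw [← hIicc]
      exact ⟨x, hx, rfl⟩
    rw [hz] at hxI
    refine ⟨z, ?_, ?_⟩
    · simp only [Finset.coe_Icc, mem_Icc]
      exact ⟨Int.ceil_le.2 hxI.1, Int.le_floor.2 hxI.2⟩
    · funext i
      rw [Subsingleton.elim i 0, hz]
  have h1 : (K ∩ lat 1).ncard ≤ (Finset.Icc ⌈α⌉ ⌊β⌋).card := by
    refine (ncard_le_ncard hsub (Finset.finite_toSet _ |>.image _)).trans ?_
    refine (ncard_image_le (Finset.finite_toSet _)).trans ?_
    rw [ncard_coe_finset]
  have h2 : ((Finset.Icc ⌈α⌉ ⌊β⌋).card : ℝ) ≤ β - α + 1 := by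
    rw [Int.card_Icc]
    have h3 : (((⌊β⌋ + 1 - ⌈α⌉).toNat : ℤ) : ℝ) = max ((⌊β⌋ : ℝ) + 1 - ⌈α⌉) 0 := by
      rw [Int.toNat_eq_max]
      push_cast
      rfl
    have h4 : (((⌊β⌋ + 1 - ⌈α⌉).toNat : ℕ) : ℝ) = (((⌊β⌋ + 1 - ⌈α⌉).toNat : ℤ) : ℝ) := by
      push_cast
      rfl
    rw [h4, h3]
    apply max_le
    · have := Int.floor_le β
      have := Int.le_ceil α
      linarith
    · linarith
  have h5 : ((K ∩ lat 1).ncard : ℝ) ≤ ((Finset.Icc ⌈α⌉ ⌊β⌋).card : ℝ) := by exact_mod_cast h1
  linarith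

theorem t_MAIN (h1 : S_SUM) (h2 : S_REC) : S_MAIN := by
  intro m
  induction m with
  | zero =>
    intro K hK hKc a n _
    exact base_case K hK hKc a n
  | succ m ih =>
    intro K hK hKc a n hKa
    have hfin : ∀ (k : ℕ) (L : Set (Fin k → ℝ)) (b : Fin k → ℤ) (l : Fin k → ℕ), L ⊆ bx b l →
        (L ∩ lat k).Finite := by
      intro k L b l hL
      have : L ∩ lat k ⊆ (fun z : Fin k → ℤ => (fun i => (z i : ℝ))) ''
          (Fintype.piFinset (fun i => Finset.Icc (b i) (b i + l i)) : Finset (Fin k → ℤ)) := by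
        rintro x ⟨hx, hxl⟩
        choose z hz using hxl
        refine ⟨z, ?_, ?_⟩
        · simp only [Finset.mem_coe, Fintype.mem_piFinset, Finset.mem_Icc]
          intro i
          have := hL hx i
          rw [hz i] at this
          constructor
          · exact_mod_cast this.1
          · exact_mod_cast this.2
        · funext i
          exact (hz i).symm
      exact ((Finset.finite_toSet _).image _).subset this
    have hsl : ∀ j : ℤ, sl K (j : ℝ) ⊆ bx (fun i => a i.succ) (fun i => n i.succ) := by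
      intro j x hx i
      simpa using hKa hx i.succ
    -- the lattice points by slices
    have hsub : K ∩ lat (m + 2) ⊆ ⋃ j ∈ Finset.Icc (a 0) (a 0 + n 0),
        (fun x => cs (j : ℝ) x) '' (sl K (j : ℝ) ∩ lat (m + 1)) := by
      rintro x ⟨hx, hxl⟩
      obtain ⟨j, hj⟩ := hxl 0
      have hb := hKa hx 0
      rw [hj] at hb
      simp only [mem_iUnion]
      refine ⟨j, ?_, fun i => x i.succ, ⟨?_, ?_⟩, ?_⟩
      · rw [Finset.mem_Icc]
        constructor
        · exact_mod_cast hb.1
        · exact_mod_cast hb.2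
      · change cs (j : ℝ) _ ∈ K
        rw [← hj, cs_eta]
        exact hx
      · intro i
        exact hxl i.succ
      · simp only
        rw [← hj, cs_eta]
    have hcard : (K ∩ lat (m + 2)).ncard ≤
        ∑ j ∈ Finset.Icc (a 0) (a 0 + n 0), (sl K (j : ℝ) ∩ lat (m + 1)).ncard := by
      refine (ncard_le_ncard hsub ?_).trans ?_
      · exact (Finset.finite_toSet _).biUnion fun j _ => (hfin _ _ _ _ (hsl j)).image _
      · refine (Finset.set_ncard_biUnion_le _ _).trans ?_
        exact Finset.sum_le_sum fun j _ => ncard_image_le (hfin _ _ _ _ (hsl j))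
    have hc' : ((K ∩ lat (m + 2)).ncard : ℝ) ≤
        ∑ j ∈ Finset.Icc (a 0) (a 0 + n 0), ((sl K (j : ℝ) ∩ lat (m + 1)).ncard : ℝ) := by
      exact_mod_cast hcard
    have hI : ∀ j ∈ Finset.Icc (a 0) (a 0 + n 0), ((sl K (j : ℝ) ∩ lat (m + 1)).ncard : ℝ) ≤
        (vol (sl K (j : ℝ)) + TT (sl K (j : ℝ))) + lo (fun i : Fin (m + 1) => (n i.succ : ℝ)) :=
      fun j _ => ih _ (isCompact_sl hK _) (convex_sl hKc _) _ _ (hsl j)
    have hS := h1 m K hK hKc a n hKa
    have hR := (h2 (m + 1) (n 0 : ℝ) (fun i => (n i.succ : ℝ))).2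
    have hcs : cs (n 0 : ℝ) (fun i : Fin (m + 1) => (n i.succ : ℝ)) = fun i => (n i : ℝ) :=
      cs_eta (fun i => (n i : ℝ))
    rw [hcs] at hR
    have hsum := Finset.sum_le_sum hI
    rw [Finset.sum_add_distrib, Finset.sum_const, Int.card_Icc] at hsum
    have hcardI : ((a 0 + n 0 + 1 - a 0).toNat : ℝ) = n 0 + 1 := by
      have : (a 0 + n 0 + 1 - a 0).toNat = n 0 + 1 := by omega
      rw [this]
      push_cast
      ring
    rw [nsmul_eq_mul, hcardI] at hsum
    rw [hR]
    linarith

end Pool.Agent.W503.EH
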